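import Pool.Agent.OR2.Emb
import Pool.Agent.OR1.Final
import Pool.Agent.OR1.Systems

/-!
# Base groups: free groups and iterated Baumslag-Gersten groups

`wpp_tower`: `OR1.exists_numSys`, `OR1.main` (see `Results/MP_804776_al/IteratedBaumslagGersten`);
`OR1.code` is the same function as `code`.
`wpp_letter`: `wpp_of_hom` with `r' = OR1.relBS 0 1 1` over `Fin (m + 2)` (`wpp_tower`, `b = 1`,
constructor `OR1.Rel.base`) and `F z = of (z + 2)` for `z ≠ y`, `F y = 1`. The map
`⟨x_0, ..., x_{m+1} | relBS 0 1 1⟩ → ⟨X | y⟩`, `0, 1 ↦ 1`, `z + 2 ↦ z`, is a left inverse.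
-/

set_option autoImplicit false

namespace Pool.Agent.OR2

theorem wpp_tower {m : ℕ} {b : ℤ} (hb : b ≠ 0) {r : FreeGroup (Fin m)} (hr : OR1.Rel b r) :
    WPP r := by
  obtain ⟨S, rfl⟩ := OR1.exists_numSys hb
  exact OR1.main S hr

/-- a homomorphism of the free group which kills the relator factors through `⟨X | r⟩` -/
private theorem eq_one_of_mk {α : Type*} {H : Type*} [Group H] {r : FreeGroup α}
    (φ : FreeGroup α →* H) (h : φ r = 1) {u : FreeGroup α}
    (hu : PresentedGroup.mk ({r} : Set (FreeGroup α)) u = 1) : φ u = 1 := by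
  rw [PresentedGroup.mk_eq_one_iff] at hu
  have h1 : Subgroup.normalClosure ({r} : Set (FreeGroup α)) ≤ φ.ker := by
    apply Subgroup.normalClosure_le_normal
    rintro x rfl
    exact h
  exact h1 hu

/-- the letter `z` of the larger alphabet -/
private def up {m : ℕ} (z : Fin m) : Fin (m + 2) := ⟨z.val + 2, by omega⟩

private noncomputable def subF {m : ℕ} (y z : Fin m) : FreeGroup (Fin (m + 2)) :=
  if z = y then 1 else FreeGroup.of (up z)

private noncomputable def back {m : ℕ} (y : Fin m) :
    FreeGroup (Fin (m + 2)) →* PresentedGroup ({FreeGroup.of y} : Set (FreeGroup (Fin m))) :=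
  FreeGroup.lift fun i =>
    if h : 2 ≤ i.val then PresentedGroup.mk _ (FreeGroup.of ⟨i.val - 2, by omega⟩) else 1

private theorem mk_rel {α : Type*} (r : FreeGroup α) :
    PresentedGroup.mk ({r} : Set (FreeGroup α)) r = 1 := by
  rw [PresentedGroup.mk_eq_one_iff]
  exact Subgroup.subset_normalClosure rfl

private theorem back_sub {m : ℕ} (y : Fin m) (u : FreeGroup (Fin m)) :
    back y (FreeGroup.lift (subF y) u) =
      PresentedGroup.mk ({FreeGroup.of y} : Set (FreeGroup (Fin m))) u := by
  have h : (back y).comp (FreeGroup.lift (subF y)) =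
      PresentedGroup.mk ({FreeGroup.of y} : Set (FreeGroup (Fin m))) := by
    apply FreeGroup.ext_hom
    intro z
    rw [MonoidHom.comp_apply, FreeGroup.lift_apply_of]
    by_cases hz : z = y
    · rw [subF, if_pos hz, map_one, hz, mk_rel]
    · rw [subF, if_neg hz, back, FreeGroup.lift_apply_of, dif_pos (by simp [up])]
      congr 2
  exact DFunLike.congr_fun h u

theorem wpp_letter {m : ℕ} (y : Fin m) : WPP (FreeGroup.of y) := by
  have h01 : (⟨0, by omega⟩ : Fin (m + 2)) ≠ ⟨1, by omega⟩ := by
    intro h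
    have := congrArg Fin.val h
    simp at this
  have hr : WPP (OR1.relBS (⟨0, by omega⟩ : Fin (m + 2)) ⟨1, by omega⟩ 1) :=
    wpp_tower one_ne_zero (OR1.Rel.base _ _ h01)
  refine wpp_of_hom (subF y) (fun u => ⟨fun hu => ?_, fun hu => ?_⟩) hr
  · have h := eq_one_of_mk ((PresentedGroup.mk
      ({OR1.relBS (⟨0, by omega⟩ : Fin (m + 2)) ⟨1, by omega⟩ 1} :
        Set (FreeGroup (Fin (m + 2))))).comp (FreeGroup.lift (subF y))) (by
        rw [MonoidHom.comp_apply, FreeGroup.lift_apply_of, subF, if_pos rfl, map_one]) hu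
    exact h
  · rw [← back_sub]
    refine eq_one_of_mk (back y) ?_ hu
    simp [OR1.relBS, back]

end Pool.Agent.OR2
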