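import Pool.Agent.OR2.Defs

/-!
# Basic lemmas on words
-/

set_option autoImplicit false

namespace Pool.Agent.OR2

open Pool.Agent.Lib.PT

section ev

variable {G : Type*} [Group G] (x : ℕ → G)

@[simp] theorem ev_nil : ev x [] = 1 := rfl

theorem ev_cons (p : ℕ × Bool) (u : W) :
    ev x (p :: u) = (bif p.2 then x p.1 else (x p.1)⁻¹) * ev x u := by
  simp [ev]

theorem ev_append (u v : W) : ev x (u ++ v) = ev x u * ev x v := by
  simp [ev]

theorem ev_single (p : ℕ × Bool) : ev x [p] = bif p.2 then x p.1 else (x p.1)⁻¹ := by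
  rw [ev_cons, ev_nil, mul_one]

theorem ev_replicate_true (i j : ℕ) : ev x (List.replicate j (i, true)) = x i ^ j := by
  simp [ev]

theorem ev_replicate_false (i j : ℕ) : ev x (List.replicate j (i, false)) = (x i ^ j)⁻¹ := by
  simp [ev]

/-- `a ^ (± j)` -/
theorem ev_replicate (i j : ℕ) (b : Bool) :
    ev x (List.replicate j (i, b)) = x i ^ (bif b then (j : ℤ) else -(j : ℤ)) := by
  cases b
  · rw [ev_replicate_false, cond_false, zpow_neg, zpow_natCast]
  · rw [ev_replicate_true, cond_true, zpow_natCast]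

theorem ev_congr {y : ℕ → G} {u : W} (h : ∀ p ∈ u, x p.1 = y p.1) : ev x u = ev y u := by
  unfold ev
  congr 1
  apply List.map_congr_left
  intro p hp
  rw [h p hp]

theorem map_ev {H : Type*} [Group H] (f : G →* H) (u : W) :
    f (ev x u) = ev (fun i => f (x i)) u := by
  induction u with
  | nil => simp
  | cons p u ih =>
    rw [ev_cons, ev_cons, map_mul, ih]
    cases p.2 <;> simp

end ev

theorem Ok.nil {n : ℕ} : Ok n [] := by simp [Ok]

theorem ok_cons {n : ℕ} {p : ℕ × Bool} {u : W} : Ok n (p :: u) ↔ p.1 < n ∧ Ok n u := by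
  simp [Ok]

theorem ok_append {n : ℕ} {u v : W} : Ok n (u ++ v) ↔ Ok n u ∧ Ok n v := by
  constructor
  · exact fun h => ⟨fun p hp => h p (List.mem_append_left _ hp),
      fun p hp => h p (List.mem_append_right _ hp)⟩
  · rintro ⟨h1, h2⟩ p hp
    rcases List.mem_append.1 hp with h | h
    · exact h1 p h
    · exact h2 p h

theorem Ok.append {n : ℕ} {u v : W} (h1 : Ok n u) (h2 : Ok n v) : Ok n (u ++ v) :=
  ok_append.2 ⟨h1, h2⟩

theorem ok_replicate {n i j : ℕ} {b : Bool} (h : i < n) : Ok n (List.replicate j (i, b)) := by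
  intro p hp
  rw [List.eq_of_mem_replicate hp]
  exact h

section wt

variable (ω : ℕ → ℝ)

@[simp] theorem wt_nil : wt ω [] = 0 := rfl

theorem wt_cons (p : ℕ × Bool) (u : W) : wt ω (p :: u) = ω p.1 + wt ω u := by
  simp [wt]

theorem wt_append (u v : W) : wt ω (u ++ v) = wt ω u + wt ω v := by
  simp [wt]

theorem wt_replicate (i j : ℕ) (b : Bool) : wt ω (List.replicate j (i, b)) = j * ω i := by
  simp [wt]

theorem length_le_wt {n : ℕ} {u : W} (hω : ∀ i < n, 1 ≤ ω i) (hu : Ok n u) :
    (u.length : ℝ) ≤ wt ω u := by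
  induction u with
  | nil => simp
  | cons p u ih =>
    rw [ok_cons] at hu
    rw [wt_cons, List.length_cons]
    push_cast
    linarith [hω p.1 hu.1, ih hu.2]

/-- the length function is bounded by the weight -/
theorem len_ev_le {G : Type*} [Group G] {x : ℕ → G} {l : G → ℝ} (h1 : l 1 = 0)
    (hl : ∀ g h, l (g * h) ≤ l g + l h) (hinv : ∀ g, l g⁻¹ = l g) {n : ℕ}
    (hω : ∀ i < n, l (x i) ≤ ω i) {u : W} (hu : Ok n u) : l (ev x u) ≤ wt ω u := by
  induction u with
  | nil => simp [h1]
  | cons p u ih =>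
    rw [ok_cons] at hu
    rw [wt_cons, ev_cons]
    refine (hl _ _).trans (add_le_add ?_ (ih hu.2))
    rcases p.2 with h | h
    · rw [cond_false, hinv]
      exact hω _ hu.1
    · rw [cond_true]
      exact hω _ hu.1

end wt

/-- powers of an element of infinite order -/
theorem zpow_eq_one_of {G : Type*} [Group G] {l : G → ℝ} (hinv : ∀ g, l g⁻¹ = l g) {a : G}
    (ha : ∀ k : ℕ, l (a ^ k) = k) (z : ℤ) : l (a ^ z) = z.natAbs := by
  rcases Int.natAbs_eq z with h | h
  · rw [h, zpow_natCast, ha]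
    simp
  · rw [h, zpow_neg, hinv, zpow_natCast, ha]
    simp

end Pool.Agent.OR2
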