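import Pool.Agent.OR2.Bsc
import Pool.Agent.Lib.PolyTime.FromTM2

/-!
# Codes, decoding, tables

Model: `Pool/Agent/OR1/Final.lean` (`Final_poly_decode`, `Final_decode_code`).
* `dec_code`: the fold over `List.replicate i true ++ [false, s]` from `(n, false, u)` (here `n = 0`)
  gives `(0, false, u ++ [(i, s)])` if `i < m`.
* `poly_dec`: `PolyTime.foldl_add` (every step adds a bounded amount to the size, `m` is fixed).
* `poly_dW`: `PolyTime.flatMap`, `PolyTime.getD` of the constant table `tab F`, `hf`, `isT`.
* `dW_spec`: for `Ok n u` the list `expa (tab F) u` is `code u'`, `u' = u.flatMap (fun p => the word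
  (F p.1).toWord or (F p.1)⁻¹.toWord)`, and `FreeGroup.mk u'` is mapped to `ev (xF r F) u`
  (`FreeGroup.mk_toWord`, induction on `u`); `isT l = true ↔ l = [true]`.
* `wpp_of`: the function `fun v => [d v]` and `polyTime_iff_TM2`.
-/

set_option autoImplicit false

namespace Pool.Agent.OR2

open Pool.Agent.Lib.PT

theorem foldl_dst_replicate (m i : ℕ) : ∀ (n : ℕ) (u : W),
    (List.replicate i true).foldl (dst m) (n, false, u) = (n + i, false, u) := by
  induction i with
  | zero => intro n u; rfl
  | succ i ih =>
    intro n u
    rw [List.replicate_succ, List.foldl_cons]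
    have : dst m (n, false, u) true = (n + 1, false, u) := rfl
    rw [this, ih]
    congr 1
    omega

theorem dec_code {m : ℕ} (w : List (Fin m × Bool)) :
    dec m (code w) = w.map fun p => (p.1.val, p.2) := by
  have key : ∀ (w : List (Fin m × Bool)) (u : W),
      (code w).foldl (dst m) (0, false, u) = (0, false, u ++ w.map fun p => (p.1.val, p.2)) := by
    intro w
    induction w with
    | nil => intro u; simp [code]
    | cons p w ih =>
      intro u
      have hc : code (p :: w) = (List.replicate p.1.val true ++ [false, p.2]) ++ code w := by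
        simp [code]
      rw [hc, List.foldl_append, List.foldl_append, foldl_dst_replicate]
      have : [false, p.2].foldl (dst m) (0 + p.1.val, false, u) =
          (0, false, u ++ [(p.1.val, p.2)]) := by
        simp [dst, p.1.isLt]
      rw [this, ih]
      simp
  rw [dec, key]
  simp

theorem ok_foldl_dst (m : ℕ) (v : List Bool) : ∀ st : ℕ × Bool × W, Ok m st.2.2 →
    Ok m (v.foldl (dst m) st).2.2 := by
  induction v with
  | nil => exact fun st h => h
  | cons c v ih =>
    intro st h
    rw [List.foldl_cons]
    apply ih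
    obtain ⟨n, z, u⟩ := st
    have h' : Ok m u := h
    cases z
    · cases c
      · exact h'
      · exact h'
    · show Ok m (bif decide (n < m) then u ++ [(n, c)] else u)
      by_cases hn : n < m
      · rw [decide_eq_true hn, cond_true]
        exact h'.append (ok_cons.2 ⟨hn, Ok.nil⟩)
      · rw [decide_eq_false hn, cond_false]
        exact h'

theorem ok_dec (m : ℕ) (v : List Bool) : Ok m (dec m v) :=
  ok_foldl_dst m v (0, false, []) Ok.nil

theorem length_foldl_dst (m : ℕ) (v : List Bool) : ∀ st : ℕ × Bool × W,
    (v.foldl (dst m) st).2.2.length ≤ st.2.2.length + v.length := by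
  induction v with
  | nil => exact fun st => le_rfl
  | cons c v ih =>
    intro st
    rw [List.foldl_cons]
    refine (ih _).trans ?_
    have h : (dst m st c).2.2.length ≤ st.2.2.length + 1 := by
      obtain ⟨n, z, u⟩ := st
      cases z
      · cases c
        · exact Nat.le_succ _
        · exact Nat.le_succ _
      · show (bif decide (n < m) then u ++ [(n, c)] else u).length ≤ u.length + 1
        cases decide (n < m)
        · exact Nat.le_succ _
        · rw [cond_true, List.length_append, List.length_singleton]
    rw [List.length_cons]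
    omega

theorem length_dec (m : ℕ) (v : List Bool) : (dec m v).length ≤ v.length := by
  have h := length_foldl_dst m v (0, false, [])
  simpa [dec] using h

theorem poly_dec (m : ℕ) : PolyTime (dec m) := by
  have hst : PolyTime (fun q : List Bool × (ℕ × Bool × W) × Bool => dst m q.2.1 q.2.2) := by
    have h1 : PolyTime (fun q : List Bool × (ℕ × Bool × W) × Bool => q.2.1.1) :=
      PolyTime.id.snd.fst.fst
    have h2 : PolyTime (fun q : List Bool × (ℕ × Bool × W) × Bool => q.2.1.2.1) :=
      PolyTime.id.snd.fst.snd.fst
    have h3 : PolyTime (fun q : List Bool × (ℕ × Bool × W) × Bool => q.2.1.2.2) :=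
      PolyTime.id.snd.fst.snd.snd
    have h4 : PolyTime (fun q : List Bool × (ℕ × Bool × W) × Bool => q.2.2) :=
      PolyTime.id.snd.snd
    unfold dst
    exact PolyTime.cond h2
      ((PolyTime.const 0).pair ((PolyTime.const false).pair
        (PolyTime.cond (h1.lt (PolyTime.const m))
          (h3.append ((h1.pair h4).cons (PolyTime.const []))) h3)))
      (PolyTime.cond h4 (h1.succ.pair ((PolyTime.const false).pair h3))
        (h1.pair ((PolyTime.const true).pair h3)))
  have h := PolyTime.foldl_add (l := fun v : List Bool => v)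
    (b := fun _ : List Bool => ((0, false, []) : ℕ × Bool × W))
    (f := fun (_ : List Bool) st c => dst m st c) PolyTime.id (PolyTime.const _) hst (by
      refine ⟨Polynomial.C 30, fun a st c _ => ?_⟩
      rw [Polynomial.eval_C]
      obtain ⟨n, z, w⟩ := st
      have hc := sz_bool_le c
      have ha := sz_append w [(n, c)]
      cases z
      · cases c
        · simp only [dst, cond_false, sz_pair, sz_nat, sz_true, sz_false]
          omega
        · simp only [dst, cond_false, cond_true, sz_pair, sz_nat, sz_false]
          omega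
      · cases hd : decide (n < m)
        · simp only [dst, cond_true, cond_false, hd, sz_pair, sz_nat, sz_true, sz_false]
          omega
        · simp only [dst, cond_true, hd, sz_pair, sz_nat, sz_true, sz_false, sz_list_cons,
            sz_list_nil] at ha ⊢
          omega)
  exact h.snd.snd

theorem poly_dW {m n : ℕ} {f : List Bool → List Bool} (hf : PolyTime f)
    (F : Fin n → FreeGroup (Fin m)) : PolyTime (dW f F) := by
  have h1 : PolyTime (fun q : W × (ℕ × Bool) => (tab F).getD q.2.1 ([], [])) :=
    PolyTime.getD (PolyTime.const (tab F)) PolyTime.id.snd.fst (PolyTime.const ([], []))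
  have h2 : PolyTime (fun u : W => expa (tab F) u) :=
    PolyTime.flatMap (l := fun u : W => u)
      (f := fun (_ : W) p => bif p.2 then ((tab F).getD p.1 ([], [])).1
        else ((tab F).getD p.1 ([], [])).2) PolyTime.id
      (PolyTime.cond PolyTime.id.snd.snd h1.fst h1.snd)
  have h3 : PolyTime (fun u : W => f (expa (tab F) u)) := hf.comp h2
  exact PolyTime.and (PolyTime.and h3.isEmpty.not (h3.headD (PolyTime.const false)))
    h3.tail.isEmpty

theorem isT_iff (l : List Bool) : isT l = true ↔ l = [true] := by
  rcases l with _ | ⟨b, _ | ⟨c, l⟩⟩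
  · simp [isT]
  · cases b <;> simp [isT]
  · simp [isT]

/-- the word of the substituted letter -/
def sW {m n : ℕ} (F : Fin n → FreeGroup (Fin m)) (p : ℕ × Bool) : List (Fin m × Bool) :=
  if h : p.1 < n then bif p.2 then (F ⟨p.1, h⟩).toWord else (F ⟨p.1, h⟩)⁻¹.toWord else []

theorem expa_eq {m n : ℕ} (F : Fin n → FreeGroup (Fin m)) {u : W} (hu : Ok n u) :
    expa (tab F) u = code (u.flatMap (sW F)) := by
  induction u with
  | nil => rfl
  | cons p u ih =>
    rw [ok_cons] at hu
    have h1 : expa (tab F) (p :: u) = (bif p.2 then ((tab F).getD p.1 ([], [])).1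
        else ((tab F).getD p.1 ([], [])).2) ++ expa (tab F) u := by
      simp [expa]
    have h2 : code ((p :: u).flatMap (sW F)) = code (sW F p) ++ code (u.flatMap (sW F)) := by
      simp [code]
    rw [h1, h2, ih hu.2]
    congr 1
    have h3 : (tab F).getD p.1 ([], []) =
        (code (F ⟨p.1, hu.1⟩).toWord, code (F ⟨p.1, hu.1⟩)⁻¹.toWord) := by
      rw [tab, List.getD_eq_getElem?_getD, List.getElem?_eq_getElem (by simpa using hu.1)]
      simp
    rw [h3, sW, dif_pos hu.1]
    cases p.2 <;> rfl

theorem mk_sW {m n : ℕ} (r : FreeGroup (Fin m)) (F : Fin n → FreeGroup (Fin m)) {u : W}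
    (hu : Ok n u) : PresentedGroup.mk ({r} : Set (FreeGroup (Fin m)))
      (FreeGroup.mk (u.flatMap (sW F))) = ev (xF r F) u := by
  induction u with
  | nil =>
    rw [ev_nil, List.flatMap_nil]
    exact map_one _
  | cons p u ih =>
    rw [ok_cons] at hu
    rw [List.flatMap_cons, ← FreeGroup.mul_mk, map_mul, ih hu.2, ev_cons]
    congr 1
    rw [sW, dif_pos hu.1, xF, dif_pos hu.1]
    cases p.2
    · rw [cond_false, cond_false, FreeGroup.mk_toWord, map_inv]
    · rw [cond_true, cond_true, FreeGroup.mk_toWord]

theorem dW_spec {m n : ℕ} {r : FreeGroup (Fin m)} {f : List Bool → List Bool}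
    (hf : ∀ w : List (Fin m × Bool), f (code w) = [true] ↔
      PresentedGroup.mk ({r} : Set (FreeGroup (Fin m))) (FreeGroup.mk w) = 1)
    (F : Fin n → FreeGroup (Fin m)) {u : W} (hu : Ok n u) :
    dW f F u = true ↔ ev (xF r F) u = 1 := by
  rw [dW, isT_iff, expa_eq F hu, hf, mk_sW r F hu]

theorem wpp_of {m : ℕ} {r : FreeGroup (Fin m)} (d : List Bool → Bool) (hd : PolyTime d)
    (h : ∀ w : List (Fin m × Bool), d (code w) = true ↔
      PresentedGroup.mk ({r} : Set (FreeGroup (Fin m))) (FreeGroup.mk w) = 1) : WPP r := by
  refine ⟨fun v => [d v], (polyTime_iff_TM2 _).1 (hd.cons (PolyTime.const [])), fun w => ?_⟩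
  rw [← h w]
  simp

theorem wpp_poly {m : ℕ} {r : FreeGroup (Fin m)} (h : WPP r) : ∃ f : List Bool → List Bool,
    PolyTime f ∧ ∀ w : List (Fin m × Bool), f (code w) = [true] ↔
      PresentedGroup.mk ({r} : Set (FreeGroup (Fin m))) (FreeGroup.mk w) = 1 := by
  obtain ⟨f, hf, h⟩ := h
  exact ⟨f, (polyTime_iff_TM2 f).2 hf, h⟩

end Pool.Agent.OR2
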