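import Mathlib
import Pool.Agent.Lib.PolyTime.Bin

/-!
# Project OR2: polynomial time and balanced substitutions in one-relator groups (MP_804776_al)

THEOREM (Main.lean). Let `r ∈ F(x_0, ..., x_{m-1})`, `y` a letter, `w` a word without `y`, and let
the elements `w` and `y` of `G = ⟨x_0, ... | r⟩` be balanced: there is a length function `l` on `G`
(`l (g h) ≤ l g + l h`, `l g⁻¹ = l g`) with `l (w ^ k) = l (y ^ k) = k` for all `k`, for instance
`l = |χ| / |χ y|` for a homomorphism `χ : G → ℤ` with `|χ w| = |χ y| ≠ 0`. Then the word problem of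
`⟨X | r⟩` is in polynomial time iff that of `⟨X | r (y := y⁻¹ w y)⟩` is. Hence a large class
(`Tame`) with word problem in polynomial time.

PROOF. `⟨X | r (y := y⁻¹ w y)⟩` is the HNN extension of `G` with stable letter `t = y⁻¹`,
`t w t⁻¹ = y_G` (`Iso`). Britton reduction from left to right with a stack (`step`, correctness
`Red`). The test whether a word `u` of `G` is in `⟨w⟩` (or `⟨y_G⟩`) tries all exponents
`|k| ≤ C * length u` (`tauC`, `Tst`); if `u = w ^ k`, then `|k| = l u ≤` the weight of `u`
(weight of a letter `x_i`: `max 1 (l x_i)`; weight of the letters `w` and `y`: `1`), so the weight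
never grows (`Siz`), hence polynomial time (`Pol`). Words of `G` may use one more letter, number
`m`, for the element `w`. Codes and tables: `Cod`. Embeddings: `Emb`.
-/

set_option autoImplicit false

namespace Pool.Agent.OR2

open Pool.Agent.Lib.PT

/-! ### Definitions of the statement -/

/-- code of a word over `x_0^±1, ..., x_{m-1}^±1` by bits: `x_i^s` is `1...10s` (`i` ones) -/
def code {m : ℕ} (w : List (Fin m × Bool)) : List Bool :=
  w.flatMap fun p => List.replicate p.1.val true ++ [false, p.2]

/-- the word problem of `⟨x_0, ..., x_{m-1} | r⟩` is decidable in polynomial time -/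
def WPP {m : ℕ} (r : FreeGroup (Fin m)) : Prop :=
  ∃ f : List Bool → List Bool,
    Nonempty (Turing.TM2ComputableInPolyTime (fun x : List Bool => x)
      (fun x : List Bool => x) f) ∧
    ∀ w : List (Fin m × Bool), f (code w) = [true] ↔
      PresentedGroup.mk ({r} : Set (FreeGroup (Fin m))) (FreeGroup.mk w) = 1

/-- there is a length function for which `a ^ k` and `b ^ k` have length `k` -/
def Balanced {G : Type*} [Group G] (a b : G) : Prop :=
  ∃ l : G → ℝ, (∀ g h, l (g * h) ≤ l g + l h) ∧ (∀ g, l g⁻¹ = l g) ∧
    ∀ k : ℕ, l (a ^ k) = k ∧ l (b ^ k) = k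

/-- the substitution `y ↦ y⁻¹ w y` -/
def sub {m : ℕ} (y : Fin m) (w : FreeGroup (Fin m)) : FreeGroup (Fin m) →* FreeGroup (Fin m) :=
  FreeGroup.lift fun z =>
    if z = y then (FreeGroup.of y)⁻¹ * w * FreeGroup.of y else FreeGroup.of z

/-- the words without the letter `y` -/
def without {m : ℕ} (y : Fin m) : Subgroup (FreeGroup (Fin m)) :=
  Subgroup.closure {g | ∃ z, z ≠ y ∧ g = FreeGroup.of z}

/-! ### Words -/

/-- words: letters `x_i ^ (± 1)` -/
abbrev W := List (ℕ × Bool)

/-- value of a word -/
def ev {G : Type*} [Group G] (x : ℕ → G) (u : W) : G :=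
  (u.map fun p => bif p.2 then x p.1 else (x p.1)⁻¹).prod

/-- all letters are `< n` -/
def Ok (n : ℕ) (u : W) : Prop := ∀ p ∈ u, p.1 < n

/-- decoding of bits: state (number of ones, just read a zero?, word); letters with numbers
`≥ m` are left out -/
def dst (m : ℕ) (st : ℕ × Bool × W) (c : Bool) : ℕ × Bool × W :=
  bif st.2.1 then (0, false, bif decide (st.1 < m) then st.2.2 ++ [(st.1, c)] else st.2.2)
  else bif c then (st.1 + 1, false, st.2.2) else (st.1, true, st.2.2)

/-- decoding -/
def dec (m : ℕ) (v : List Bool) : W := (v.foldl (dst m) (0, false, [])).2.2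

/-- bits of a word; `E` is the table of the codes of the letters and of their inverses -/
def expa (E : List (List Bool × List Bool)) (u : W) : List Bool :=
  u.flatMap fun p => bif p.2 then (E.getD p.1 ([], [])).1 else (E.getD p.1 ([], [])).2

/-- the table for the substitution `x_i ↦ F i` -/
def tab {m n : ℕ} (F : Fin n → FreeGroup (Fin m)) : List (List Bool × List Bool) :=
  List.ofFn fun i => (code (F i).toWord, code (F i)⁻¹.toWord)

/-- the list is `[true]` -/
def isT (l : List Bool) : Bool := !l.isEmpty && l.headD false && l.tail.isEmpty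

/-- the letters `F i` in `⟨X | r⟩` -/
def xF {m n : ℕ} (r : FreeGroup (Fin m)) (F : Fin n → FreeGroup (Fin m)) (i : ℕ) :
    PresentedGroup ({r} : Set (FreeGroup (Fin m))) :=
  if h : i < n then PresentedGroup.mk _ (F ⟨i, h⟩) else 1

/-- decision for words in the letters `F i` -/
def dW {m n : ℕ} (f : List Bool → List Bool) (F : Fin n → FreeGroup (Fin m)) (u : W) : Bool :=
  isT (f (expa (tab F) u))

/-! ### Britton reduction -/

/-- state: stack `[(g_{s-1}, e_s), ..., (g_0, e_1)]` for `g_0 y ^ (± 1) g_1 y ^ (± 1) ...`,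
current word -/
abbrev St := List (W × Bool) × W

/-- one step of the reduction; `k` is the number of the stable letter `y`, `τ true u` is `[]` if
`u` is not in `A` and `[φ u]` if it is, `τ false u` is `[]` if `u` is not in `B` and `[φ⁻¹ u]` if
it is; here `y⁻¹ a y = φ a` for `a ∈ A` -/
def step (k : ℕ) (τ : Bool → W → List W) (st : St) (p : ℕ × Bool) : St :=
  bif p.1 == k then
    bif (!st.1.isEmpty && xor (st.1.headD ([], false)).2 p.2) && !(τ p.2 st.2).isEmpty then
      (st.1.tail, (st.1.headD ([], false)).1 ++ (τ p.2 st.2).headD [])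
    else ((st.2, p.2) :: st.1, [])
  else (st.1, st.2 ++ [p])

/-- the reduction -/
def red (k : ℕ) (τ : Bool → W → List W) (u : W) : St := u.foldl (step k τ) ([], [])

/-- correctness of the test `τ` for words in the letters `x 0, ..., x (n - 1)` -/
structure TauOk {G : Type*} [Group G] {A B : Subgroup G} (φ : A ≃* B) (n : ℕ) (x : ℕ → G)
    (τ : Bool → W → List W) : Prop where
  ok : ∀ s u, Ok n u → ∀ v ∈ τ s u, Ok n v
  no : ∀ s u, Ok n u → τ s u = [] → ev x u ∉ (bif s then A else B)
  yes_t : ∀ u, Ok n u → ∀ v ∈ τ true u, ∃ h : ev x u ∈ A, ev x v = φ ⟨ev x u, h⟩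
  yes_f : ∀ u, Ok n u → ∀ v ∈ τ false u, ∃ h : ev x u ∈ B, ev x v = φ.symm ⟨ev x u, h⟩

/-- the letters of the HNN extension: number `k` is `y = t⁻¹` -/
noncomputable def yx {G : Type*} [Group G] {A B : Subgroup G} (φ : A ≃* B) (k : ℕ) (x : ℕ → G)
    (i : ℕ) : HNNExtension G A B φ :=
  if i = k then HNNExtension.t⁻¹ else HNNExtension.of (x i)

/-- weight of a word -/
def wt (ω : ℕ → ℝ) (u : W) : ℝ := (u.map fun p => ω p.1).sum

/-- weight of a state -/
def wst (ω : ℕ → ℝ) (st : St) : ℝ := (st.1.map fun q => wt ω q.1 + 1).sum + wt ω st.2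

/-! ### The test for cyclic subgroups -/

/-- candidates for the exponent -/
def cands (C : ℕ) (u : W) : List (ℕ × Bool) :=
  (List.range (C * u.length + 1)).flatMap fun j => [(j, true), (j, false)]

/-- the test; the letters with the numbers `n` and `k` generate `A` and `B`, `d` decides the word
problem of the base group -/
def tauC (d : W → Bool) (C k n : ℕ) (s : Bool) (u : W) : List W :=
  (((cands C u).filter fun q =>
    d (u ++ List.replicate q.1 (bif s then n else k, !q.2))).take 1).map fun q =>
      List.replicate q.1 (bif s then k else n, q.2)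

/-- the test for the trivial subgroups -/
def tau0 (d : W → Bool) (_ : Bool) (u : W) : List W := bif d u then [[]] else []

end Pool.Agent.OR2
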