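import Pool.Agent.OR2.Cod

/-!
# Embeddings

The word problem of a group which embeds by a substitution `x_i ↦ F i`: decode the bits
(`dec m`), replace every letter by the code of `F i` or `(F i)⁻¹` (that is `dW f F (dec m v)`).
`ev (xF r' F) (w.map (fun p => (p.1.val, p.2))) = mk (FreeGroup.lift F (FreeGroup.mk w))`.
-/

set_option autoImplicit false

namespace Pool.Agent.OR2

open Pool.Agent.Lib.PT

theorem ev_xF {m n : ℕ} (r : FreeGroup (Fin m)) (F : Fin n → FreeGroup (Fin m))
    (w : List (Fin n × Bool)) :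
    ev (xF r F) (w.map fun p => (p.1.val, p.2)) =
      PresentedGroup.mk ({r} : Set (FreeGroup (Fin m))) (FreeGroup.lift F (FreeGroup.mk w)) := by
  rw [FreeGroup.lift_mk, map_list_prod, ev, List.map_map, List.map_map]
  congr 1
  apply List.map_congr_left
  rintro ⟨i, b⟩ _
  have h1 : xF r F i.val = PresentedGroup.mk ({r} : Set (FreeGroup (Fin m))) (F i) := by
    unfold xF
    rw [dif_pos i.isLt]
  simp only [Function.comp, h1]
  cases b
  · simp
  · simp

theorem wpp_of_hom {m n : ℕ} {r : FreeGroup (Fin n)} {r' : FreeGroup (Fin m)}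
    (F : Fin n → FreeGroup (Fin m))
    (h : ∀ u : FreeGroup (Fin n), PresentedGroup.mk ({r} : Set (FreeGroup (Fin n))) u = 1 ↔
      PresentedGroup.mk ({r'} : Set (FreeGroup (Fin m))) (FreeGroup.lift F u) = 1)
    (hr : WPP r') : WPP r := by
  obtain ⟨f, hf, hs⟩ := wpp_poly hr
  refine wpp_of (fun v => dW f F (dec n v)) ((poly_dW hf F).comp (poly_dec n)) fun w => ?_
  have h1 : Ok n (w.map fun p => (p.1.val, p.2)) := by
    intro p hp
    obtain ⟨q, _, rfl⟩ := List.mem_map.1 hp
    exact q.1.isLt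
  show dW f F (dec n (code w)) = true ↔ _
  rw [dec_code, dW_spec hs F h1, ev_xF, h]

end Pool.Agent.OR2
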