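import Pool.Agent.OR2.Bsc

/-!
# One more free letter

Model: `Pool/Agent/OR1/OneRel.lean`, theorem `onerel_free`. Forward map on the generators:
`z.castSucc ↦ of z`, `last ↦ t⁻¹`; inverse: `HNNExtension.lift` of `u ↦ map castSucc u` and
`t ↦ (last)⁻¹` (the associated subgroups are trivial).
`drop_iff`: the retraction `last ↦ 1`.
-/

set_option autoImplicit false

namespace Pool.Agent.OR2

private theorem lift_castSucc {m : ℕ} {H : Type} [Group H] (f : Fin (m + 1) → H) :
    (FreeGroup.lift f).comp (FreeGroup.map Fin.castSucc) = FreeGroup.lift fun z : Fin m => f z.castSucc := by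
  apply FreeGroup.ext_hom
  intro z
  simp

private theorem lift_of_mk {m : ℕ} {n : ℕ} (f : Fin m → FreeGroup (Fin n)) (R : Set (FreeGroup (Fin n)))
    (u : FreeGroup (Fin m)) :
    FreeGroup.lift (fun z => PresentedGroup.mk R (f z)) u = PresentedGroup.mk R (FreeGroup.lift f u) := by
  have h : FreeGroup.lift (fun z => PresentedGroup.mk R (f z)) = (PresentedGroup.mk R).comp (FreeGroup.lift f) := by
    apply FreeGroup.ext_hom
    intro z
    simp
  rw [h]
  rfl

/-- the inclusion -/
private def inc {m : ℕ} (r : FreeGroup (Fin m)) : PresentedGroup ({r} : Set (FreeGroup (Fin m))) →*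
    PresentedGroup ({FreeGroup.map Fin.castSucc r} : Set (FreeGroup (Fin (m + 1)))) :=
  PresentedGroup.toGroup (f := fun z => PresentedGroup.mk _ (FreeGroup.of z.castSucc)) (by
    intro w hw
    rw [Set.mem_singleton_iff] at hw
    subst hw
    rw [lift_of_mk]
    have h1 : FreeGroup.lift (fun z : Fin m => FreeGroup.of z.castSucc) = FreeGroup.map Fin.castSucc := by
      apply FreeGroup.ext_hom
      intro z
      simp
    rw [h1]
    exact PresentedGroup.one_of_mem (Set.mem_singleton _))

private theorem inc_of {m : ℕ} (r : FreeGroup (Fin m)) (z : Fin m) :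
    inc r (PresentedGroup.of z) = PresentedGroup.of z.castSucc := PresentedGroup.toGroup.of _

private theorem inc_mk {m : ℕ} (r u : FreeGroup (Fin m)) :
    inc r (PresentedGroup.mk _ u) = PresentedGroup.mk _ (FreeGroup.map Fin.castSucc u) := by
  have h : (inc r).comp (PresentedGroup.mk ({r} : Set (FreeGroup (Fin m)))) =
      (PresentedGroup.mk ({FreeGroup.map Fin.castSucc r} : Set (FreeGroup (Fin (m + 1))))).comp
        (FreeGroup.map Fin.castSucc) := by
    apply FreeGroup.ext_hom
    intro z
    show inc r (PresentedGroup.of z) = PresentedGroup.mk _ (FreeGroup.map Fin.castSucc (FreeGroup.of z))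
    rw [inc_of, FreeGroup.map.of]
    rfl
  exact DFunLike.congr_fun h u

theorem iso_free {m : ℕ} {r : FreeGroup (Fin m)}
    {A B : Subgroup (PresentedGroup ({r} : Set (FreeGroup (Fin m))))} (φ : A ≃* B)
    (hA : A = ⊥) (hB : B = ⊥) :
    ∃ Φ : PresentedGroup ({FreeGroup.map Fin.castSucc r} : Set (FreeGroup (Fin (m + 1)))) ≃*
        HNNExtension _ A B φ,
      (∀ z : Fin m, Φ (PresentedGroup.of z.castSucc) = HNNExtension.of (PresentedGroup.of z)) ∧
      Φ (PresentedGroup.of (Fin.last m)) = HNNExtension.t⁻¹ := by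
  let f0 : Fin (m + 1) → HNNExtension (PresentedGroup ({r} : Set (FreeGroup (Fin m)))) A B φ :=
    Fin.lastCases HNNExtension.t⁻¹ fun z => HNNExtension.of (PresentedGroup.of z)
  have f0l : f0 (Fin.last m) = HNNExtension.t⁻¹ := Fin.lastCases_last
  have f0c : ∀ z : Fin m, f0 z.castSucc = HNNExtension.of (PresentedGroup.of z) :=
    fun z => Fin.lastCases_castSucc _
  have hfree : ∀ u : FreeGroup (Fin m), FreeGroup.lift f0 (FreeGroup.map Fin.castSucc u) =
      HNNExtension.of (PresentedGroup.mk ({r} : Set (FreeGroup (Fin m))) u) := by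
    have h : (FreeGroup.lift f0).comp (FreeGroup.map Fin.castSucc) =
        (HNNExtension.of : _ →* HNNExtension (PresentedGroup ({r} : Set (FreeGroup (Fin m)))) A B φ).comp
          (PresentedGroup.mk ({r} : Set (FreeGroup (Fin m)))) := by
      rw [lift_castSucc]
      apply FreeGroup.ext_hom
      intro z
      rw [FreeGroup.lift_apply_of, f0c]
      rfl
    intro u
    exact DFunLike.congr_fun h u
  have hrel : ∀ w ∈ ({FreeGroup.map Fin.castSucc r} : Set (FreeGroup (Fin (m + 1)))), FreeGroup.lift f0 w = 1 := by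
    intro w hw
    rw [Set.mem_singleton_iff] at hw
    rw [hw, hfree, PresentedGroup.one_of_mem (Set.mem_singleton r), map_one]
  let f : PresentedGroup ({FreeGroup.map Fin.castSucc r} : Set (FreeGroup (Fin (m + 1)))) →*
      HNNExtension (PresentedGroup ({r} : Set (FreeGroup (Fin m)))) A B φ := PresentedGroup.toGroup hrel
  have hf : ∀ z, f (PresentedGroup.of z) = f0 z := fun z => PresentedGroup.toGroup.of _
  let g : HNNExtension (PresentedGroup ({r} : Set (FreeGroup (Fin m)))) A B φ →*
      PresentedGroup ({FreeGroup.map Fin.castSucc r} : Set (FreeGroup (Fin (m + 1)))) :=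
    HNNExtension.lift (inc r) (PresentedGroup.of (Fin.last m))⁻¹ (by
      intro a
      have ha : (a : PresentedGroup ({r} : Set (FreeGroup (Fin m)))) = 1 :=
        Subgroup.mem_bot.1 (hA.le a.2)
      have hb : (φ a : PresentedGroup ({r} : Set (FreeGroup (Fin m)))) = 1 :=
        Subgroup.mem_bot.1 (hB.le (φ a).2)
      rw [ha, hb, map_one, mul_one, one_mul])
  have hgt : g HNNExtension.t = (PresentedGroup.of (Fin.last m))⁻¹ := HNNExtension.lift_t _ _ _
  have hgo : ∀ x, g (HNNExtension.of x) = inc r x := fun x => HNNExtension.lift_of _ _ _ x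
  have hfg : f.comp g = MonoidHom.id _ := by
    apply HNNExtension.hom_ext
    · apply PresentedGroup.ext
      intro z
      show f (g (HNNExtension.of (PresentedGroup.of z))) = HNNExtension.of (PresentedGroup.of z)
      rw [hgo, inc_of, hf, f0c]
    · show f (g HNNExtension.t) = HNNExtension.t
      rw [hgt, map_inv, hf, f0l, inv_inv]
  have hgf : g.comp f = MonoidHom.id _ := by
    apply PresentedGroup.ext
    intro z
    show g (f (PresentedGroup.of z)) = PresentedGroup.of z
    rw [hf]
    refine Fin.lastCases ?_ (fun z => ?_) z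
    · rw [f0l, map_inv, hgt, inv_inv]
    · rw [f0c, hgo, inc_of]
  refine ⟨MonoidHom.toMulEquiv f g hgf hfg, fun z => ?_, ?_⟩
  · show f (PresentedGroup.of z.castSucc) = _
    rw [hf, f0c]
  · show f (PresentedGroup.of (Fin.last m)) = _
    rw [hf, f0l]

theorem drop_iff {m : ℕ} (r u : FreeGroup (Fin m)) :
    PresentedGroup.mk ({FreeGroup.map Fin.castSucc r} : Set (FreeGroup (Fin (m + 1))))
      (FreeGroup.map Fin.castSucc u) = 1 ↔
    PresentedGroup.mk ({r} : Set (FreeGroup (Fin m))) u = 1 := by
  let f0 : Fin (m + 1) → PresentedGroup ({r} : Set (FreeGroup (Fin m))) :=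
    Fin.lastCases 1 fun z => PresentedGroup.of z
  have f0c : ∀ z : Fin m, f0 z.castSucc = PresentedGroup.of z := fun z => Fin.lastCases_castSucc _
  have hfree : ∀ u : FreeGroup (Fin m), FreeGroup.lift f0 (FreeGroup.map Fin.castSucc u) =
      PresentedGroup.mk ({r} : Set (FreeGroup (Fin m))) u := by
    have h : (FreeGroup.lift f0).comp (FreeGroup.map Fin.castSucc) =
        PresentedGroup.mk ({r} : Set (FreeGroup (Fin m))) := by
      rw [lift_castSucc]
      apply FreeGroup.ext_hom
      intro z
      rw [FreeGroup.lift_apply_of, f0c]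
      rfl
    intro u
    exact DFunLike.congr_fun h u
  have hrel : ∀ w ∈ ({FreeGroup.map Fin.castSucc r} : Set (FreeGroup (Fin (m + 1)))), FreeGroup.lift f0 w = 1 := by
    intro w hw
    rw [Set.mem_singleton_iff] at hw
    rw [hw, hfree, PresentedGroup.one_of_mem (Set.mem_singleton r)]
  let f : PresentedGroup ({FreeGroup.map Fin.castSucc r} : Set (FreeGroup (Fin (m + 1)))) →*
      PresentedGroup ({r} : Set (FreeGroup (Fin m))) := PresentedGroup.toGroup hrel
  constructor
  · intro h
    have h1 : f (PresentedGroup.mk _ (FreeGroup.map Fin.castSucc u)) =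
        FreeGroup.lift f0 (FreeGroup.map Fin.castSucc u) := rfl
    rw [h, map_one, hfree] at h1
    exact h1.symm
  · intro h
    rw [← inc_mk, h, map_one]

/-- automorphisms of the free group -/
theorem equiv_iff {m : ℕ} (α : FreeGroup (Fin m) ≃* FreeGroup (Fin m))
    (r u : FreeGroup (Fin m)) :
    PresentedGroup.mk ({α r} : Set (FreeGroup (Fin m))) (α u) = 1 ↔
    PresentedGroup.mk ({r} : Set (FreeGroup (Fin m))) u = 1 := by
  rw [PresentedGroup.mk_eq_one_iff, PresentedGroup.mk_eq_one_iff]
  have h1 := Subgroup.map_normalClosure ({r} : Set (FreeGroup (Fin m))) α.toMonoidHom α.surjective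
  have h2 : (α.toMonoidHom : FreeGroup (Fin m) →* FreeGroup (Fin m)) '' {r} = {α r} := by
    rw [Set.image_singleton]
    rfl
  rw [h2] at h1
  rw [← h1, Subgroup.mem_map]
  constructor
  · rintro ⟨v, hv, hvu⟩
    have h3 : v = u := α.injective hvu
    rwa [h3] at hv
  · intro h
    exact ⟨u, h, rfl⟩

theorem inv_iff {m : ℕ} (r u : FreeGroup (Fin m)) :
    PresentedGroup.mk ({r⁻¹} : Set (FreeGroup (Fin m))) u = 1 ↔
    PresentedGroup.mk ({r} : Set (FreeGroup (Fin m))) u = 1 := by
  rw [PresentedGroup.mk_eq_one_iff, PresentedGroup.mk_eq_one_iff]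
  have h1 : Subgroup.normalClosure ({r⁻¹} : Set (FreeGroup (Fin m))) = Subgroup.normalClosure {r} := by
    apply le_antisymm
    · refine Subgroup.normalClosure_le_normal ?_
      rw [Set.singleton_subset_iff]
      exact Subgroup.inv_mem _ (Subgroup.subset_normalClosure (Set.mem_singleton r))
    · refine Subgroup.normalClosure_le_normal ?_
      rw [Set.singleton_subset_iff]
      have h2 := Subgroup.inv_mem _
        (Subgroup.subset_normalClosure (G := FreeGroup (Fin m)) (Set.mem_singleton r⁻¹))
      rwa [inv_inv] at h2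
  rw [h1]

end Pool.Agent.OR2
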