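import Pool.Agent.OR2.Bsc

/-!
# The substituted group as an HNN extension

Model: `Pool/Agent/OR1/OneRel.lean`, theorem `onerel_step` (the case `w = x ^ (± 1)`).
Forward map on the generators: `y ↦ t⁻¹`, `z ↦ of z` (`z ≠ y`). As `w` does not contain `y`, the
image of `w` is `of w`, so the image of `sub y w u` is `of u` for every `u` (on `y`:
`t * of w * t⁻¹ = of (φ w) = of y`). Inverse: `HNNExtension.lift` of the map `u ↦ sub y w u` of
`⟨X | r⟩` and `t ↦ y⁻¹`; `sub y w w = w`.
-/

set_option autoImplicit false

namespace Pool.Agent.OR2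

/-- the substitution does not change words without `y` -/
theorem sub_without {m : ℕ} {y : Fin m} {w u : FreeGroup (Fin m)} (hu : u ∈ without y) :
    sub y w u = u := by
  have h : Set.EqOn (sub y w) (MonoidHom.id _) {g | ∃ z, z ≠ y ∧ g = FreeGroup.of z} := by
    rintro _ ⟨z, hz, rfl⟩
    simp only [sub, FreeGroup.lift_apply_of, if_neg hz, MonoidHom.id_apply]
  exact MonoidHom.eqOn_closure h hu

theorem iso_sub {m : ℕ} {r : FreeGroup (Fin m)} {y : Fin m} {w : FreeGroup (Fin m)}
    (hw : w ∈ without y)
    {A B : Subgroup (PresentedGroup ({r} : Set (FreeGroup (Fin m))))} (φ : A ≃* B)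
    (hA : A = Subgroup.zpowers (PresentedGroup.mk {r} w))
    (hφ : ∀ (a : A) (z : ℤ), (a : PresentedGroup ({r} : Set (FreeGroup (Fin m)))) =
      PresentedGroup.mk {r} w ^ z →
      (φ a : PresentedGroup ({r} : Set (FreeGroup (Fin m)))) = PresentedGroup.of y ^ z) :
    ∃ Φ : PresentedGroup ({sub y w r} : Set (FreeGroup (Fin m))) ≃* HNNExtension _ A B φ,
      (∀ z, z ≠ y → Φ (PresentedGroup.of z) = HNNExtension.of (PresentedGroup.of z)) ∧
      Φ (PresentedGroup.of y) = HNNExtension.t⁻¹ ∧
      ∀ u : FreeGroup (Fin m), Φ (PresentedGroup.mk _ (sub y w u)) =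
        HNNExtension.of (PresentedGroup.mk _ u) := by
  classical
  -- forward map on generators
  let f0 : Fin m → HNNExtension (PresentedGroup ({r} : Set (FreeGroup (Fin m)))) A B φ := fun z =>
    if z = y then HNNExtension.t⁻¹ else HNNExtension.of (PresentedGroup.of z)
  have hwA : PresentedGroup.mk {r} w ∈ A := by
    rw [hA]
    exact Subgroup.mem_zpowers _
  have hconj : (HNNExtension.t : HNNExtension _ A B φ) *
      HNNExtension.of (PresentedGroup.mk {r} w) * HNNExtension.t⁻¹ =
      HNNExtension.of (PresentedGroup.of y) := by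
    have h1 := HNNExtension.equiv_eq_conj (φ := φ) (⟨PresentedGroup.mk {r} w, hwA⟩ : A)
    rw [hφ _ 1 (zpow_one _).symm, zpow_one] at h1
    exact h1.symm
  have hfw : FreeGroup.lift f0 w = HNNExtension.of (PresentedGroup.mk {r} w) := by
    have h : Set.EqOn (FreeGroup.lift f0)
        ((HNNExtension.of (φ := φ)).comp (PresentedGroup.mk ({r} : Set (FreeGroup (Fin m)))))
        {g | ∃ z, z ≠ y ∧ g = FreeGroup.of z} := by
      rintro _ ⟨z, hz, rfl⟩
      simp only [FreeGroup.lift_apply_of, f0, if_neg hz]
      rfl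
    exact MonoidHom.eqOn_closure h hw
  have hfree : (FreeGroup.lift f0).comp (sub y w) =
      (HNNExtension.of (φ := φ)).comp (PresentedGroup.mk ({r} : Set (FreeGroup (Fin m)))) := by
    apply FreeGroup.ext_hom
    intro z
    by_cases hz : z = y
    · subst hz
      have hy : FreeGroup.lift f0 (FreeGroup.of z) = HNNExtension.t⁻¹ := by
        simp only [FreeGroup.lift_apply_of, f0, if_true]
      have hs : sub z w (FreeGroup.of z) = (FreeGroup.of z)⁻¹ * w * FreeGroup.of z := by
        simp only [sub, FreeGroup.lift_apply_of, if_true]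
      rw [MonoidHom.comp_apply, hs, map_mul, map_mul, map_inv, hy, hfw, inv_inv]
      exact hconj
    · simp only [MonoidHom.comp_apply, sub, FreeGroup.lift_apply_of, if_neg hz, f0]
      rfl
  have hrel : ∀ v ∈ ({sub y w r} : Set (FreeGroup (Fin m))), FreeGroup.lift f0 v = 1 := by
    intro v hv
    rw [Set.mem_singleton_iff] at hv
    subst hv
    have h4 := DFunLike.congr_fun hfree r
    rw [MonoidHom.comp_apply] at h4
    rw [h4, MonoidHom.comp_apply, PresentedGroup.one_of_mem (Set.mem_singleton r), map_one]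
  let f : PresentedGroup ({sub y w r} : Set (FreeGroup (Fin m))) →*
      HNNExtension (PresentedGroup ({r} : Set (FreeGroup (Fin m)))) A B φ :=
    PresentedGroup.toGroup hrel
  have hfmk : ∀ v, f (PresentedGroup.mk _ v) = FreeGroup.lift f0 v := fun v => rfl
  -- backward map
  let g1 : PresentedGroup ({r} : Set (FreeGroup (Fin m))) →*
      PresentedGroup ({sub y w r} : Set (FreeGroup (Fin m))) :=
    PresentedGroup.toGroup (f := fun z => PresentedGroup.mk _ (sub y w (FreeGroup.of z))) (by
      intro v hv
      rw [Set.mem_singleton_iff] at hv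
      subst hv
      have h5 : FreeGroup.lift (fun z => PresentedGroup.mk ({sub y w v} : Set (FreeGroup (Fin m)))
          (sub y w (FreeGroup.of z))) =
          (PresentedGroup.mk ({sub y w v} : Set (FreeGroup (Fin m)))).comp (sub y w) := by
        apply FreeGroup.ext_hom
        intro z
        simp only [FreeGroup.lift_apply_of, MonoidHom.comp_apply]
      rw [h5, MonoidHom.comp_apply]
      exact PresentedGroup.one_of_mem (Set.mem_singleton _))
  have hg1of : ∀ z, g1 (PresentedGroup.of z) = PresentedGroup.mk _ (sub y w (FreeGroup.of z)) :=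
    fun z => PresentedGroup.toGroup.of _
  have hg1 : ∀ u, g1 (PresentedGroup.mk _ u) = PresentedGroup.mk _ (sub y w u) := by
    have h6 : g1.comp (PresentedGroup.mk _) = (PresentedGroup.mk _).comp (sub y w) := by
      apply FreeGroup.ext_hom
      intro z
      exact hg1of z
    exact fun u => DFunLike.congr_fun h6 u
  have hg1w : g1 (PresentedGroup.mk _ w) = PresentedGroup.mk _ w := by
    rw [hg1, sub_without hw]
  have hg1y : g1 (PresentedGroup.of y) =
      (PresentedGroup.of y)⁻¹ * PresentedGroup.mk _ w * PresentedGroup.of y := by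
    refine (hg1 (FreeGroup.of y)).trans ?_
    have hs : sub y w (FreeGroup.of y) = (FreeGroup.of y)⁻¹ * w * FreeGroup.of y := by
      simp only [sub, FreeGroup.lift_apply_of, if_true]
    rw [hs, map_mul, map_mul, map_inv]
    rfl
  let g : HNNExtension (PresentedGroup ({r} : Set (FreeGroup (Fin m)))) A B φ →*
      PresentedGroup ({sub y w r} : Set (FreeGroup (Fin m))) :=
    HNNExtension.lift g1 (PresentedGroup.of y)⁻¹ (by
      intro a
      have ha : (a : PresentedGroup ({r} : Set (FreeGroup (Fin m)))) ∈
          Subgroup.zpowers (PresentedGroup.mk {r} w) := hA ▸ a.2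
      obtain ⟨z, hz⟩ := Subgroup.mem_zpowers_iff.mp ha
      rw [hφ a z hz.symm, ← hz, map_zpow, map_zpow, hg1w, hg1y]
      have h6 : ∀ (u v : PresentedGroup ({sub y w r} : Set (FreeGroup (Fin m)))) (n : ℤ),
          (u⁻¹ * v * u) ^ n = u⁻¹ * v ^ n * u := by
        intro u v n
        have := conj_zpow (a := u⁻¹) (b := v) (i := n)
        rwa [inv_inv] at this
      rw [h6, mul_inv_cancel_right])
  have hgof : ∀ c, g (HNNExtension.of c) = g1 c := fun c => HNNExtension.lift_of _ _ _ _
  have hgt : g HNNExtension.t = (PresentedGroup.of y)⁻¹ := HNNExtension.lift_t _ _ _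
  have hfy : f (PresentedGroup.of y) = HNNExtension.t⁻¹ := by
    refine (hfmk (FreeGroup.of y)).trans ?_
    simp only [FreeGroup.lift_apply_of, f0, if_true]
  have hfz : ∀ z, z ≠ y → f (PresentedGroup.of z) = HNNExtension.of (PresentedGroup.of z) := by
    intro z hz
    refine (hfmk (FreeGroup.of z)).trans ?_
    simp only [FreeGroup.lift_apply_of, f0, if_neg hz]
  have hfs : ∀ u, f (PresentedGroup.mk _ (sub y w u)) = HNNExtension.of (PresentedGroup.mk _ u) :=
    fun u => DFunLike.congr_fun hfree u
  have hfg : f.comp g = MonoidHom.id _ := by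
    apply HNNExtension.hom_ext
    · apply PresentedGroup.ext
      intro z
      simp only [MonoidHom.comp_apply, MonoidHom.id_apply]
      rw [hgof]
      refine (congrArg f (hg1 (FreeGroup.of z))).trans ?_
      exact hfs _
    · simp only [MonoidHom.comp_apply, MonoidHom.id_apply]
      rw [hgt, map_inv, hfy, inv_inv]
  have hgf : g.comp f = MonoidHom.id _ := by
    apply PresentedGroup.ext
    intro z
    simp only [MonoidHom.comp_apply, MonoidHom.id_apply]
    by_cases hz : z = y
    · rw [hz, hfy, map_inv, hgt, inv_inv]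
    · rw [hfz z hz, hgof]
      refine (hg1 (FreeGroup.of z)).trans ?_
      have hs : sub y w (FreeGroup.of z) = FreeGroup.of z := by
        simp only [sub, FreeGroup.lift_apply_of, if_neg hz]
      rw [hs]
      rfl
  exact ⟨MonoidHom.toMulEquiv f g hgf hfg, hfz, hfy, hfs⟩

/-- the cyclic group of an element of infinite order -/
private theorem exists_zp {G : Type*} [Group G] (g : G) (hg : ∀ z : ℤ, g ^ z = 1 → z = 0) :
    ∃ E : Multiplicative ℤ ≃* Subgroup.zpowers g, ∀ z : ℤ,
      ((E (Multiplicative.ofAdd z) : Subgroup.zpowers g) : G) = g ^ z := by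
  let f : Multiplicative ℤ →* Subgroup.zpowers g :=
    { toFun := fun z => ⟨g ^ z.toAdd, Subgroup.zpow_mem_zpowers g _⟩
      map_one' := by
        apply Subtype.ext
        simp
      map_mul' := by
        intro a c
        apply Subtype.ext
        simp only [toAdd_mul, Subgroup.coe_mul]
        rw [zpow_add] }
  have hf : Function.Bijective f := by
    constructor
    · rw [injective_iff_map_eq_one]
      intro a ha
      have h1 : g ^ a.toAdd = 1 := congrArg Subtype.val ha
      have h2 := hg _ h1
      exact Multiplicative.toAdd.injective (by simpa using h2)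
    · rintro ⟨y, hy⟩
      rw [Subgroup.mem_zpowers_iff] at hy
      obtain ⟨z, rfl⟩ := hy
      exact ⟨Multiplicative.ofAdd z, rfl⟩
  exact ⟨MulEquiv.ofBijective f hf, fun z => rfl⟩

/-- two elements of infinite order -/
theorem exists_phi {G : Type*} [Group G] {a b : G} (ha : ∀ z : ℤ, a ^ z = 1 → z = 0)
    (hb : ∀ z : ℤ, b ^ z = 1 → z = 0) :
    ∃ φ : Subgroup.zpowers a ≃* Subgroup.zpowers b,
      ∀ (c : Subgroup.zpowers a) (z : ℤ), (c : G) = a ^ z → (φ c : G) = b ^ z := by
  obtain ⟨E, hE⟩ := exists_zp a ha
  obtain ⟨F, hF⟩ := exists_zp b hb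
  refine ⟨E.symm.trans F, fun c z hc => ?_⟩
  have h1 : E.symm c = Multiplicative.ofAdd z := by
    rw [MulEquiv.symm_apply_eq]
    apply Subtype.ext
    rw [hE, hc]
  rw [MulEquiv.trans_apply, h1, hF]

end Pool.Agent.OR2
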