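import Pool.Agent.OR2.Cod

/-!
# Polynomial time of the reduction and of the tests

* `poly_red`: `PolyTime.foldl` (not `foldl_add`): the sizes of the intermediate states
  `((dec m v).take i).foldl ... = red k τ ((dec m v).take i)` are bounded by `hs`
  (`ok_dec`, `length_dec`, `List.length_take`); the step is built from `PolyTime.cond`, `isEmpty`,
  `headD`, `xor`, `tail`, `append`, `eqNat`, ... and `hp`.
* `poly_tauC`: `cands` by `PolyTime.range`, `mul`, `flatMap`; then `filter`, `take`, `map`,
  `replicate`.
The names of the closure lemmas are in `Pool/Agent/Lib/PolyTime/Lib.lean`.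
-/

set_option autoImplicit false

namespace Pool.Agent.OR2

open Pool.Agent.Lib.PT

private theorem poly_step {k : ℕ} {τ : Bool → W → List W}
    (hp : PolyTime (fun q : Bool × W => τ q.1 q.2)) :
    PolyTime (fun q : List Bool × St × (ℕ × Bool) => step k τ q.2.1 q.2.2) := by
  have h1 : PolyTime (fun q : List Bool × St × (ℕ × Bool) => q.2.1.1) := PolyTime.id.snd.fst.fst
  have h2 : PolyTime (fun q : List Bool × St × (ℕ × Bool) => q.2.1.2) := PolyTime.id.snd.fst.snd
  have h3 : PolyTime (fun q : List Bool × St × (ℕ × Bool) => q.2.2.1) := PolyTime.id.snd.snd.fst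
  have h4 : PolyTime (fun q : List Bool × St × (ℕ × Bool) => q.2.2.2) := PolyTime.id.snd.snd.snd
  have h5 : PolyTime (fun q : List Bool × St × (ℕ × Bool) => τ q.2.2.2 q.2.1.2) :=
    hp.comp (h4.pair h2)
  have h6 : PolyTime (fun q : List Bool × St × (ℕ × Bool) => q.2.1.1.headD ([], false)) :=
    h1.headD (PolyTime.const ([], false))
  have h7 : PolyTime (fun q : List Bool × St × (ℕ × Bool) => (q.2.2.1 == k)) :=
    (h3.eqNat (PolyTime.const k)).congr fun q => by
      rw [Bool.eq_iff_iff]
      simp
  unfold step
  exact PolyTime.cond h7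
    (PolyTime.cond ((h1.isEmpty.not.and (h6.snd.xor h4)).and h5.isEmpty.not)
      (h1.tail.pair (h6.fst.append (h5.headD (PolyTime.const []))))
      (((h2.pair h4).cons h1).pair (PolyTime.const [])))
    (h1.pair (h2.append ((h3.pair h4).cons (PolyTime.const []))))

theorem poly_red {n k : ℕ} {τ : Bool → W → List W}
    (hp : PolyTime (fun q : Bool × W => τ q.1 q.2)) {m : ℕ} (hm : ∀ i < m, i ≠ k → i < n)
    (hs : ∃ K : ℕ, ∀ u : W, (∀ p ∈ u, p.1 ≠ k → p.1 < n) →
      sz (red k τ u) ≤ K * (u.length + 1)) :
    PolyTime (fun v : List Bool => red k τ (dec m v)) := by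
  obtain ⟨K, hK⟩ := hs
  refine PolyTime.foldl (l := fun v : List Bool => dec m v)
    (b := fun _ : List Bool => (([], []) : St))
    (f := fun (_ : List Bool) st p => step k τ st p) (poly_dec m) (PolyTime.const _)
    (poly_step hp) ⟨Polynomial.C K * (Polynomial.X + 1), fun v i _ => ?_⟩
  have h1 := hK ((dec m v).take i) (fun p hpu hpk =>
    hm p.1 (ok_dec m v p (List.mem_of_mem_take hpu)) hpk)
  have h2 : ((dec m v).take i).length ≤ sz v := by
    rw [List.length_take]
    exact (min_le_right _ _).trans ((length_dec m v).trans (length_lt_sz v).le)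
  rw [Polynomial.eval_mul, Polynomial.eval_C, Polynomial.eval_add, Polynomial.eval_X,
    Polynomial.eval_one]
  exact h1.trans (Nat.mul_le_mul_left K (Nat.succ_le_succ h2))

private theorem poly_cands (C : ℕ) : PolyTime (fun q : Bool × W => cands C q.2) := by
  have h1 : PolyTime (fun q : Bool × W => C * q.2.length + 1) :=
    ((PolyTime.const C).mul PolyTime.id.snd.length).succ
  exact PolyTime.flatMap (l := fun q : Bool × W => List.range (C * q.2.length + 1))
    (f := fun (_ : Bool × W) j => [(j, true), (j, false)]) h1.range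
    ((PolyTime.id.snd.pair (PolyTime.const true)).cons
      ((PolyTime.id.snd.pair (PolyTime.const false)).cons (PolyTime.const [])))

theorem poly_tauC {d : W → Bool} (hd : PolyTime d) (C k n : ℕ) :
    PolyTime (fun q : Bool × W => tauC d C k n q.1 q.2) := by
  have h1 : PolyTime (fun q : (Bool × W) × (ℕ × Bool) =>
      d (q.1.2 ++ List.replicate q.2.1 (bif q.1.1 then n else k, !q.2.2))) :=
    hd.comp (PolyTime.id.fst.snd.append (PolyTime.replicate PolyTime.id.snd.fst
      ((PolyTime.cond PolyTime.id.fst.fst (PolyTime.const n) (PolyTime.const k)).pair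
        PolyTime.id.snd.snd.not)))
  have h2 : PolyTime (fun q : (Bool × W) × (ℕ × Bool) =>
      List.replicate q.2.1 (bif q.1.1 then k else n, q.2.2)) :=
    PolyTime.replicate PolyTime.id.snd.fst
      ((PolyTime.cond PolyTime.id.fst.fst (PolyTime.const k) (PolyTime.const n)).pair
        PolyTime.id.snd.snd)
  have h3 := PolyTime.filter (l := fun q : Bool × W => cands C q.2)
    (f := fun (a : Bool × W) q =>
      d (a.2 ++ List.replicate q.1 (bif a.1 then n else k, !q.2))) (poly_cands C) h1
  exact PolyTime.map (l := fun a : Bool × W => ((cands C a.2).filter fun q =>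
      d (a.2 ++ List.replicate q.1 (bif a.1 then n else k, !q.2))).take 1)
    (f := fun (a : Bool × W) q => List.replicate q.1 (bif a.1 then k else n, q.2))
    (PolyTime.take (PolyTime.const 1) h3) h2

theorem poly_tau0 {d : W → Bool} (hd : PolyTime d) :
    PolyTime (fun q : Bool × W => tau0 d q.1 q.2) :=
  PolyTime.cond (hd.comp PolyTime.id.snd) (PolyTime.const [[]]) (PolyTime.const [])

end Pool.Agent.OR2
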