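import Pool.Agent.OR2.Bsc
import Pool.Agent.OR1.Brit

/-!
# Correctness of the reduction

Fold invariant for the state `st` reached from `u` (`y = t⁻¹ = yx φ k x k`): all words of `st` are
`Ok n`, `BRed A B S` and `ev (yx φ k x) u = sv φ S * of (ev x st.2)`, where
`S = st.1.map (fun q => (ev x q.1, bif q.2 then 1 else -1))` (`sv`, `BRed`, `brit`, `y_conj_A`,
`y_conj_B` are in `Pool/Agent/OR1/Brit.lean`). A pinch: the top `(g, e')` has `e' ≠ e` and
`τ e c = [v]`: if `e = true`: `of g * y⁻¹ * of c * y = of g * of (φ c)`; if `e = false`:
`of g * y * of c * y⁻¹ = of g * of (φ.symm c)`. No pinch: `BRed` of the new stack by `TauOk.no`.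
End: if the stack is not empty, the value is not in the range of `of` by `brit`, in particular not
`1`; if it is empty, use that `of` is injective.
-/

set_option autoImplicit false

namespace Pool.Agent.OR2

open Pool.Agent.OR1 HNNExtension

namespace Red

variable {G : Type*} [Group G] {A B : Subgroup G} (φ : A ≃* B)

/-- The stack as a stack of group elements. -/
def stk (x : ℕ → G) (s : List (W × Bool)) : List (G × ℤ) :=
  s.map fun q => (ev x q.1, bif q.2 then 1 else -1)

@[simp] theorem stk_nil (x : ℕ → G) : stk x [] = [] := rfl

@[simp] theorem stk_cons (x : ℕ → G) (q : W × Bool) (s : List (W × Bool)) :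
    stk x (q :: s) = (ev x q.1, bif q.2 then 1 else -1) :: stk x s := rfl

/-- The invariant. -/
structure Inv (n k : ℕ) (x : ℕ → G) (u : W) (st : St) : Prop where
  oks : ∀ q ∈ st.1, Ok n q.1
  okc : Ok n st.2
  red : BRed A B (stk x st.1)
  val : ev (yx φ k x) u = sv φ (stk x st.1) * of (ev x st.2)

theorem yx_self (k : ℕ) (x : ℕ → G) : yx φ k x k = t⁻¹ := if_pos rfl

theorem yx_ne {k i : ℕ} (x : ℕ → G) (h : i ≠ k) : yx φ k x i = of (x i) := if_neg h

/-- The last step. -/
theorem ev_snoc {H : Type*} [Group H] (y : ℕ → H) (u : W) (p : ℕ × Bool) :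
    ev y (u ++ [p]) = ev y u * bif p.2 then y p.1 else (y p.1)⁻¹ := by
  rw [ev_append, ev_single]

theorem inv_step {n k : ℕ} {x : ℕ → G} {τ : Bool → W → List W} (hτ : TauOk φ n x τ) {u : W}
    {st : St} (h : Inv φ n k x u st) (p : ℕ × Bool) (hp : p.1 ≠ k → p.1 < n) :
    Inv φ n k x (u ++ [p]) (step k τ st p) := by
  obtain ⟨i, e⟩ := p
  obtain ⟨s, c⟩ := st
  obtain ⟨h1, h2, h3, h4⟩ := h
  simp only at h1 h2 h3 h4 hp
  by_cases hik : i = k
  · subst hik
    -- the new letter
    have hpush : (∀ q ∈ s.head?, q.2 ≠ e → τ e c = []) →
        Inv φ n i x (u ++ [(i, e)]) ((c, e) :: s, []) := by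
      intro hq
      refine ⟨?_, Ok.nil, ?_, ?_⟩
      · intro q hq'
        rcases List.mem_cons.1 hq' with rfl | hq'
        · exact h2
        · exact h1 q hq'
      · rw [stk_cons]
        refine ⟨by cases e <;> simp, h3, ?_⟩
        intro r hr
        rcases s with _ | ⟨⟨g, e'⟩, s⟩
        · simp at hr
        · simp only [stk_cons, List.head?_cons, Option.mem_def, Option.some.injEq] at hr
          subst hr
          have hq1 := hq (g, e') (by simp)
          cases e <;> cases e'
          · simp
          · refine ⟨by simp, fun _ _ => ?_⟩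
            have := hτ.no false c h2 (hq1 (by simp))
            simpa using this
          · refine ⟨fun _ _ => ?_, by simp⟩
            have := hτ.no true c h2 (hq1 (by simp))
            simpa using this
          · simp
      · rw [ev_snoc, h4]
        simp only [yx_self, stk_cons, sv, ev_nil, map_one, mul_one]
        cases e <;> simp
    rcases s with _ | ⟨⟨g, e'⟩, s⟩
    · have : step i τ ([], c) (i, e) = ([(c, e)], []) := by simp [step]
      rw [this]
      exact hpush (by simp)
    · by_cases hee : e' = e
      · have : step i τ ((g, e') :: s, c) (i, e) = ((c, e) :: (g, e') :: s, []) := by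
          subst hee
          simp [step]
        rw [this]
        refine hpush fun q hq => ?_
        simp only [List.head?_cons, Option.mem_def, Option.some.injEq] at hq
        subst hq
        exact fun h => absurd hee h
      · rcases hv : τ e c with _ | ⟨v, l⟩
        · have : step i τ ((g, e') :: s, c) (i, e) = ((c, e) :: (g, e') :: s, []) := by
            simp [step, hv]
          rw [this]
          exact hpush fun q _ _ => hv
        · have : step i τ ((g, e') :: s, c) (i, e) = (s, g ++ v) := by
            have hx : (e' ^^ e) = true := by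
              cases e <;> cases e' <;> simp_all
            simp [step, hv, hx]
          rw [this]
          have hvm : v ∈ τ e c := by rw [hv]; simp
          refine ⟨fun q hq => h1 q (List.mem_cons_of_mem _ hq),
            (h1 (g, e') (by simp)).append (hτ.ok e c h2 v hvm), h3.2.1, ?_⟩
          rw [ev_snoc, h4]
          simp only [yx_self, stk_cons, sv, ev_append, map_mul]
          cases e
          · have he' : e' = true := by
              cases e'
              · exact absurd rfl hee
              · rfl
            subst he'
            obtain ⟨hB, hB'⟩ := hτ.yes_f c h2 v hvm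
            have hy := y_conj_B φ ⟨ev x c, hB⟩
            rw [hB', ← hy]
            simp only [cond_true, cond_false, zpow_one, mul_assoc]
          · have he' : e' = false := by
              cases e'
              · rfl
              · exact absurd rfl hee
            subst he'
            obtain ⟨hA, hA'⟩ := hτ.yes_t c h2 v hvm
            have hy := y_conj_A φ ⟨ev x c, hA⟩
            rw [hA', ← hy]
            simp only [cond_true, cond_false, zpow_neg, zpow_one, mul_assoc]
  · -- an old letter
    have : step k τ (s, c) (i, e) = (s, c ++ [(i, e)]) := by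
      have hb : (i == k) = false := beq_false_of_ne hik
      simp only [step, hb, cond_false]
    rw [this]
    refine ⟨h1, h2.append (ok_cons.2 ⟨hp hik, Ok.nil⟩), h3, ?_⟩
    rw [ev_snoc, h4, ev_snoc]
    simp only [yx_ne φ x hik, map_mul]
    cases e <;> simp [mul_assoc]

theorem inv_fold {n k : ℕ} {x : ℕ → G} {τ : Bool → W → List W} (hτ : TauOk φ n x τ) (u : W) :
    ∀ (u₀ : W) (st : St), Inv φ n k x u₀ st → (∀ p ∈ u, p.1 ≠ k → p.1 < n) →
      Inv φ n k x (u₀ ++ u) (u.foldl (step k τ) st) := by
  induction u with
  | nil =>
    intro u₀ st h _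
    simpa using h
  | cons p u ih =>
    intro u₀ st h hu
    rw [List.foldl_cons, List.append_cons]
    exact ih _ _ (inv_step φ hτ h p (hu p (by simp)))
      fun q hq => hu q (List.mem_cons_of_mem _ hq)

end Red

theorem red_spec {G : Type*} [Group G] {A B : Subgroup G} (φ : A ≃* B) {n k : ℕ} {x : ℕ → G}
    {τ : Bool → W → List W} (hτ : TauOk φ n x τ) (u : W) (hu : ∀ p ∈ u, p.1 ≠ k → p.1 < n) :
    Ok n (red k τ u).2 ∧
    (ev (yx φ k x) u = 1 ↔ (red k τ u).1 = [] ∧ ev x (red k τ u).2 = 1) := by
  have h0 : Red.Inv φ n k x [] ([], []) := by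
    refine ⟨by simp, Ok.nil, trivial, ?_⟩
    simp [sv]
  have h := Red.inv_fold φ hτ u [] ([], []) h0 hu
  rw [List.nil_append] at h
  change Red.Inv φ n k x u (red k τ u) at h
  refine ⟨h.okc, ?_⟩
  rw [h.val]
  constructor
  · intro h1
    by_cases hs : (red k τ u).1 = []
    · refine ⟨hs, ?_⟩
      rw [hs] at h1
      simp only [Red.stk_nil, sv, one_mul] at h1
      exact of_injective (φ := φ) (by rw [h1, map_one])
    · exfalso
      have hne : Red.stk x (red k τ u).1 ≠ [] := by
        unfold Red.stk
        simpa using hs
      refine brit φ hne h.red (ev x (red k τ u).2) ?_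
      rw [h1]
      exact one_mem _
  · rintro ⟨h1, h2⟩
    rw [h1, h2]
    simp [sv]

end Pool.Agent.OR2
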