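import Pool.Agent.OR2.Bsc
import Pool.Agent.Lib.PolyTime.Bin

/-!
# The size of the states

Invariant of the fold: all words of the state are `Ok n`, and `wst ω st ≤ (C + 1) * (number of
letters read)` (a letter `p`, `p.1 ≠ k`, adds `ω p.1 ≤ C`; the stable letter adds at most `1`; a
pinch does not increase `wst`). As `ω ≥ 1`, the number of letters in the words plus the number of
entries of the stack is at most `wst ω st` (`length_le_wt`), and every letter `(i, b)`, `i < n`, has
size bounded in terms of `n`. `sz` of pairs, lists, numbers: `sz_pair`, `sz_list_cons`,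
`sz_list_nil`, `sz_nat`, `sz_bool_le` (see `Pool/Agent/OR1/RedPoly.lean`, `Final.lean`).
-/

set_option autoImplicit false

namespace Pool.Agent.OR2

open Pool.Agent.Lib.PT

private theorem sz_word {n : ℕ} {u : W} (hu : Ok n u) : sz u ≤ (2 * n + 6) * u.length + 1 := by
  have h := sz_le_of_length (l := u) (n := u.length) (B := 2 * n + 5) le_rfl (fun a ha => by
    have h1 := hu a ha
    have h2 := sz_bool_le a.2
    have h3 : sz a = sz a.1 + sz a.2 + 1 := rfl
    rw [sz_nat] at h3
    omega)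
  calc sz u ≤ u.length * (2 * n + 5 + 1) + 1 := h
    _ = (2 * n + 6) * u.length + 1 := by ring

private theorem sz_stack {n : ℕ} {s : List (W × Bool)} (hs : ∀ q ∈ s, Ok n q.1) :
    sz s ≤ (2 * n + 6) * (s.map fun q => q.1.length + 1).sum + 1 := by
  induction s with
  | nil => simp
  | cons q s ih =>
    have h1 := ih fun a ha => hs a (List.mem_cons_of_mem _ ha)
    have h2 := sz_word (hs q List.mem_cons_self)
    have h3 := sz_bool_le q.2
    have h4 : sz q = sz q.1 + sz q.2 + 1 := rfl
    rw [sz_list_cons, List.map_cons, List.sum_cons]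
    nlinarith

private theorem stack_wt {n : ℕ} {ω : ℕ → ℝ} (hω : ∀ i < n, 1 ≤ ω i) {s : List (W × Bool)}
    (hs : ∀ q ∈ s, Ok n q.1) :
    (((s.map fun q => q.1.length + 1).sum : ℕ) : ℝ) ≤ (s.map fun q => wt ω q.1 + 1).sum := by
  induction s with
  | nil => simp
  | cons q s ih =>
    have h1 := ih fun a ha => hs a (List.mem_cons_of_mem _ ha)
    have h2 := length_le_wt ω hω (hs q List.mem_cons_self)
    rw [List.map_cons, List.sum_cons, List.map_cons, List.sum_cons]
    push_cast at h1 ⊢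
    linarith

private theorem step_inv {n k C : ℕ} {ω : ℕ → ℝ} (hω : ∀ i < n, 1 ≤ ω i ∧ ω i ≤ C)
    {τ : Bool → W → List W} (hτ : ∀ s u, Ok n u → ∀ v ∈ τ s u, Ok n v ∧ wt ω v ≤ wt ω u)
    {st : St} (h1 : ∀ q ∈ st.1, Ok n q.1) (h2 : Ok n st.2) {p : ℕ × Bool}
    (hp : p.1 ≠ k → p.1 < n) :
    ((∀ q ∈ (step k τ st p).1, Ok n q.1) ∧ Ok n (step k τ st p).2) ∧
      wst ω (step k τ st p) ≤ wst ω st + (C + 1) := by
  obtain ⟨s, g⟩ := st
  simp only at h1 h2
  have hC : (0 : ℝ) ≤ C := Nat.cast_nonneg _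
  by_cases hpk : p.1 = k
  · have hb : (p.1 == k) = true := by simpa using hpk
    have hpush : ((∀ q ∈ (((g, p.2) :: s, ([] : W)) : St).1, Ok n q.1) ∧
        Ok n (((g, p.2) :: s, ([] : W)) : St).2) ∧
        wst ω (((g, p.2) :: s, ([] : W)) : St) ≤ wst ω ((s, g) : St) + (C + 1) := by
      refine ⟨⟨fun q hq => ?_, Ok.nil⟩, ?_⟩
      · rcases List.mem_cons.1 hq with rfl | hq
        · exact h2
        · exact h1 q hq
      · simp only [wst, List.map_cons, List.sum_cons, wt_nil]
        linarith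
    unfold step
    rw [hb, cond_true]
    cases s with
    | nil =>
      simpa using hpush
    | cons q s =>
      cases hτe : τ p.2 g with
      | nil =>
        simpa [hτe] using hpush
      | cons v l =>
        by_cases hx : xor q.2 p.2 = true
        · have hv := hτ p.2 g h2 v (by rw [hτe]; exact List.mem_cons_self)
          have hq := h1 q List.mem_cons_self
          simp only [List.isEmpty_cons, Bool.not_false, List.headD_cons, hx, Bool.and_self,
            cond_true, List.tail_cons]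
          refine ⟨⟨fun a ha => h1 a (List.mem_cons_of_mem _ ha), hq.append hv.1⟩, ?_⟩
          simp only [wst, List.map_cons, List.sum_cons, wt_append]
          linarith [hv.2]
        · rw [Bool.not_eq_true] at hx
          simp only [List.isEmpty_cons, Bool.not_false, List.headD_cons, hx, Bool.and_false,
            Bool.false_and, cond_false]
          exact hpush
  · have hb : (p.1 == k) = false := by simpa using hpk
    unfold step
    rw [hb, cond_false]
    have hpn := hp hpk
    refine ⟨⟨h1, h2.append (by rw [ok_cons]; exact ⟨hpn, Ok.nil⟩)⟩, ?_⟩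
    simp only [wst, wt_append, wt_cons, wt_nil]
    linarith [(hω _ hpn).2]

private theorem fold_inv {n k C : ℕ} {ω : ℕ → ℝ} (hω : ∀ i < n, 1 ≤ ω i ∧ ω i ≤ C)
    {τ : Bool → W → List W} (hτ : ∀ s u, Ok n u → ∀ v ∈ τ s u, Ok n v ∧ wt ω v ≤ wt ω u)
    (u : W) : ∀ st : St, (∀ q ∈ st.1, Ok n q.1) → Ok n st.2 → (∀ p ∈ u, p.1 ≠ k → p.1 < n) →
    ((∀ q ∈ (u.foldl (step k τ) st).1, Ok n q.1) ∧ Ok n (u.foldl (step k τ) st).2) ∧
      wst ω (u.foldl (step k τ) st) ≤ wst ω st + (C + 1) * u.length := by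
  induction u with
  | nil =>
    intro st h1 h2 _
    exact ⟨⟨h1, h2⟩, by simp⟩
  | cons p u ih =>
    intro st h1 h2 h3
    have h4 := step_inv hω hτ h1 h2 (h3 p List.mem_cons_self)
    have h5 := ih (step k τ st p) h4.1.1 h4.1.2 fun a ha => h3 a (List.mem_cons_of_mem _ ha)
    rw [List.foldl_cons]
    refine ⟨h5.1, h5.2.trans ?_⟩
    rw [List.length_cons]
    push_cast
    linarith [h4.2]

theorem red_size {n k C : ℕ} {ω : ℕ → ℝ} (hω : ∀ i < n, 1 ≤ ω i ∧ ω i ≤ C)
    {τ : Bool → W → List W}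
    (hτ : ∀ s u, Ok n u → ∀ v ∈ τ s u, Ok n v ∧ wt ω v ≤ wt ω u) :
    ∃ K : ℕ, ∀ u : W, (∀ p ∈ u, p.1 ≠ k → p.1 < n) → sz (red k τ u) ≤ K * (u.length + 1) := by
  refine ⟨(2 * n + 6) * (C + 1) + 3, fun u hu => ?_⟩
  have h := fold_inv hω hτ u ([], []) (by simp) Ok.nil hu
  have hr : u.foldl (step k τ) ([], []) = red k τ u := rfl
  rw [hr] at h
  obtain ⟨⟨h1, h2⟩, h3⟩ := h
  have h4 := sz_stack h1
  have h5 := sz_word h2
  have h6 := stack_wt (fun i hi => (hω i hi).1) h1
  have h7 := length_le_wt ω (fun i hi => (hω i hi).1) h2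
  have h8 : wst ω (([], []) : St) = 0 := by simp [wst]
  rw [h8, zero_add] at h3
  have h9 : sz (red k τ u) = sz (red k τ u).1 + sz (red k τ u).2 + 1 := rfl
  set A := ((red k τ u).1.map fun q => q.1.length + 1).sum with hA
  set B := (red k τ u).2.length with hB
  have h10 : A + B ≤ (C + 1) * u.length := by
    have : ((A + B : ℕ) : ℝ) ≤ (((C + 1) * u.length : ℕ) : ℝ) := by
      push_cast
      have h11 : wst ω (red k τ u) = ((red k τ u).1.map fun q => wt ω q.1 + 1).sum +
        wt ω (red k τ u).2 := rfl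
      rw [h11] at h3
      linarith
    exact_mod_cast this
  have h12 : (2 * n + 6) * (A + B) ≤ (2 * n + 6) * ((C + 1) * u.length) :=
    Nat.mul_le_mul_left _ h10
  calc sz (red k τ u) ≤ (2 * n + 6) * A + 1 + ((2 * n + 6) * B + 1) + 1 := by omega
    _ = (2 * n + 6) * (A + B) + 3 := by ring
    _ ≤ (2 * n + 6) * ((C + 1) * u.length) + 3 := by omega
    _ ≤ ((2 * n + 6) * (C + 1) + 3) * (u.length + 1) := by nlinarith

end Pool.Agent.OR2
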