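import Pool.Agent.OR2.Bsc

/-!
# The tests for the associated subgroups

`tauC_ok`: let `src = bif s then n else k` and `tgt = bif s then k else n`. A candidate `(j, b)`
passes iff `ev x u = x src ^ (± j)` (`ev_append`, `ev_replicate`); the answer is the word of
`x tgt ^ (± j)`. If `ev x u = x src ^ z`, then `(z.natAbs, decide (0 ≤ z))` passes and it is in
`cands C u`, since `|z| = l (ev x u) ≤ C * u.length` (`zpow_eq_one_of`, `len_ev_le` with `ω = C`).
`tauC_wt`: a candidate which passes has `j = l (ev x u) ≤ wt ω u`, and the weight of the answer is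
`j * max 1 (l (x tgt)) = j`.
-/

set_option autoImplicit false

namespace Pool.Agent.OR2

/-- what a candidate which passes says -/
private theorem mem_tauC {G : Type*} [Group G] {x : ℕ → G} {n k : ℕ} (hk : k ≤ n)
    {d : W → Bool} (hd : ∀ u, Ok (n + 1) u → (d u = true ↔ ev x u = 1)) {C : ℕ} {s : Bool} {u : W}
    (hu : Ok (n + 1) u) {v : W} (hv : v ∈ tauC d C k n s u) :
    ∃ (j : ℕ) (b : Bool), v = List.replicate j (bif s then k else n, b) ∧
      ev x u = x (bif s then n else k) ^ (bif b then (j : ℤ) else -(j : ℤ)) := by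
  unfold tauC at hv
  obtain ⟨q, hq, rfl⟩ := List.mem_map.1 hv
  have h1 := (List.mem_filter.1 (List.mem_of_mem_take hq)).2
  refine ⟨q.1, q.2, rfl, ?_⟩
  have hsrc : (bif s then n else k) < n + 1 := by
    cases s
    · exact Nat.lt_succ_of_le hk
    · exact Nat.lt_succ_self n
  have h2 := (hd _ (hu.append (ok_replicate hsrc))).1 h1
  rw [ev_append, ev_replicate, mul_eq_one_iff_eq_inv] at h2
  rw [h2]
  cases q.2 <;> simp

private theorem mem_tauC_of {G : Type*} [Group G] {x : ℕ → G} {n k : ℕ} (hk : k ≤ n)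
    {d : W → Bool} (hd : ∀ u, Ok (n + 1) u → (d u = true ↔ ev x u = 1))
    {l : G → ℝ} (hl : ∀ g h, l (g * h) ≤ l g + l h) (hinv : ∀ g, l g⁻¹ = l g)
    (hp : ∀ j : ℕ, l (x n ^ j) = j ∧ l (x k ^ j) = j) {C : ℕ} (hC : ∀ i ≤ n, l (x i) ≤ C)
    {s : Bool} {u : W} (hu : Ok (n + 1) u) {z : ℤ} (hz : ev x u = x (bif s then n else k) ^ z) :
    tauC d C k n s u ≠ [] := by
  have hl1 : l 1 = 0 := by
    have := (hp 0).1
    simpa using this
  have hlz : l (ev x u) = z.natAbs := by
    rw [hz]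
    apply zpow_eq_one_of hinv
    intro j
    cases s
    · exact (hp j).2
    · exact (hp j).1
  have hle : z.natAbs ≤ C * u.length := by
    have h1 := len_ev_le (x := x) (fun _ : ℕ => (C : ℝ)) hl1 hl hinv (n := n + 1)
      (fun i hi => hC i (by omega)) hu
    rw [hlz] at h1
    have h2 : wt (fun _ : ℕ => (C : ℝ)) u = C * u.length := by
      unfold wt
      rw [List.map_const', List.sum_replicate, nsmul_eq_mul]
      ring
    rw [h2] at h1
    exact_mod_cast h1
  have hmem : (z.natAbs, decide (0 ≤ z)) ∈ cands C u := by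
    unfold cands
    rw [List.mem_flatMap]
    refine ⟨z.natAbs, List.mem_range.2 (by omega), ?_⟩
    cases decide (0 ≤ z) <;> simp
  have hsrc : (bif s then n else k) < n + 1 := by
    cases s
    · exact Nat.lt_succ_of_le hk
    · exact Nat.lt_succ_self n
  have hpass : d (u ++ List.replicate z.natAbs (bif s then n else k, !decide (0 ≤ z))) = true := by
    rw [hd _ (hu.append (ok_replicate hsrc)), ev_append, ev_replicate, hz, ← zpow_add]
    have h0 : z + (bif !decide (0 ≤ z) then ((z.natAbs : ℕ) : ℤ) else -((z.natAbs : ℕ) : ℤ)) = 0 := by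
      by_cases h : 0 ≤ z
      · rw [decide_eq_true h, Bool.not_true, cond_false]
        omega
      · rw [decide_eq_false h, Bool.not_false, cond_true]
        omega
    rw [h0, zpow_zero]
  intro hnil
  unfold tauC at hnil
  rw [List.map_eq_nil_iff, List.take_eq_nil_iff] at hnil
  rcases hnil with h | h
  · exact one_ne_zero h
  · have h1 : (z.natAbs, decide (0 ≤ z)) ∈ (cands C u).filter fun q =>
        d (u ++ List.replicate q.1 (bif s then n else k, !q.2)) :=
      List.mem_filter.2 ⟨hmem, hpass⟩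
    rw [h] at h1
    exact List.not_mem_nil h1

theorem tauC_ok {G : Type*} [Group G] {x : ℕ → G} {n k : ℕ} (hk : k ≤ n) {A B : Subgroup G}
    (φ : A ≃* B) (hA : A = Subgroup.zpowers (x n)) (hB : B = Subgroup.zpowers (x k))
    (hφ : ∀ (a : A) (z : ℤ), (a : G) = x n ^ z → (φ a : G) = x k ^ z)
    {d : W → Bool} (hd : ∀ u, Ok (n + 1) u → (d u = true ↔ ev x u = 1))
    {l : G → ℝ} (hl : ∀ g h, l (g * h) ≤ l g + l h) (hinv : ∀ g, l g⁻¹ = l g)
    (hp : ∀ j : ℕ, l (x n ^ j) = j ∧ l (x k ^ j) = j) {C : ℕ} (hC : ∀ i ≤ n, l (x i) ≤ C) :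
    TauOk φ (n + 1) x (tauC d C k n) := by
  refine ⟨?_, ?_, ?_, ?_⟩
  · intro s u hu v hv
    obtain ⟨j, b, rfl, -⟩ := mem_tauC hk hd hu hv
    refine ok_replicate ?_
    cases s
    · exact Nat.lt_succ_self n
    · exact Nat.lt_succ_of_le hk
  · intro s u hu hnil hmem
    have h1 : ∃ z : ℤ, ev x u = x (bif s then n else k) ^ z := by
      cases s
      · rw [cond_false, hB] at hmem
        obtain ⟨z, hz⟩ := Subgroup.mem_zpowers_iff.1 hmem
        exact ⟨z, hz.symm⟩
      · rw [cond_true, hA] at hmem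
        obtain ⟨z, hz⟩ := Subgroup.mem_zpowers_iff.1 hmem
        exact ⟨z, hz.symm⟩
    obtain ⟨z, hz⟩ := h1
    exact mem_tauC_of hk hd hl hinv hp hC hu hz hnil
  · intro u hu v hv
    obtain ⟨j, b, rfl, h⟩ := mem_tauC hk hd hu hv
    rw [cond_true] at h
    have hA' : ev x u ∈ A := by
      rw [hA, h]
      exact Subgroup.zpow_mem_zpowers _ _
    refine ⟨hA', ?_⟩
    rw [cond_true, ev_replicate]
    exact (hφ ⟨ev x u, hA'⟩ _ h).symm
  · intro u hu v hv
    obtain ⟨j, b, rfl, h⟩ := mem_tauC hk hd hu hv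
    rw [cond_false] at h
    have hB' : ev x u ∈ B := by
      rw [hB, h]
      exact Subgroup.zpow_mem_zpowers _ _
    refine ⟨hB', ?_⟩
    rw [cond_false, ev_replicate]
    have hA' : x n ^ (bif b then (j : ℤ) else -(j : ℤ)) ∈ A := by
      rw [hA]
      exact Subgroup.zpow_mem_zpowers _ _
    have h2 : φ ⟨_, hA'⟩ = ⟨ev x u, hB'⟩ := by
      apply Subtype.ext
      rw [hφ ⟨_, hA'⟩ _ rfl, ← h]
    rw [← h2, MulEquiv.symm_apply_apply]

theorem tauC_wt {G : Type*} [Group G] {x : ℕ → G} {n k : ℕ} (hk : k ≤ n)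
    {d : W → Bool} (hd : ∀ u, Ok (n + 1) u → (d u = true ↔ ev x u = 1))
    {l : G → ℝ} (hl : ∀ g h, l (g * h) ≤ l g + l h) (hinv : ∀ g, l g⁻¹ = l g)
    (hp : ∀ j : ℕ, l (x n ^ j) = j ∧ l (x k ^ j) = j) (C : ℕ) (s : Bool) (u : W)
    (hu : Ok (n + 1) u) : ∀ v ∈ tauC d C k n s u, Ok (n + 1) v ∧
      wt (fun i => max 1 (l (x i))) v ≤ wt (fun i => max 1 (l (x i))) u := by
  intro v hv
  obtain ⟨j, b, rfl, h⟩ := mem_tauC hk hd hu hv
  have ht : (bif s then k else n) < n + 1 := by
    cases s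
    · exact Nat.lt_succ_self n
    · exact Nat.lt_succ_of_le hk
  refine ⟨ok_replicate ht, ?_⟩
  have hl1 : l 1 = 0 := by
    have := (hp 0).1
    simpa using this
  have htgt : l (x (bif s then k else n)) = 1 := by
    cases s
    · have := (hp 1).1
      simpa using this
    · have := (hp 1).2
      simpa using this
  have hlj : l (ev x u) = j := by
    rw [h, zpow_eq_one_of hinv]
    · cases b <;> simp
    · intro i
      cases s
      · exact (hp i).2
      · exact (hp i).1
  have h1 := len_ev_le (x := x) (fun i => max 1 (l (x i))) hl1 hl hinv (n := n + 1)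
    (fun i _ => le_max_right _ _) hu
  rw [hlj] at h1
  rw [wt_replicate, htgt, max_self, mul_one]
  exact h1

theorem tau0_ok {G : Type*} [Group G] {x : ℕ → G} {n : ℕ} {A B : Subgroup G}
    (φ : A ≃* B) (hA : A = ⊥) (hB : B = ⊥)
    {d : W → Bool} (hd : ∀ u, Ok n u → (d u = true ↔ ev x u = 1)) :
    TauOk φ n x (tau0 d) := by
  have hmem : ∀ (s : Bool) (u v : W), v ∈ tau0 d s u → v = [] ∧ d u = true := by
    intro s u v hv
    unfold tau0 at hv
    cases h : d u
    · rw [h] at hv
      exact absurd hv List.not_mem_nil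
    · rw [h] at hv
      exact ⟨List.mem_singleton.1 hv, rfl⟩
  refine ⟨?_, ?_, ?_, ?_⟩
  · intro s u _ v hv
    rw [(hmem s u v hv).1]
    exact Ok.nil
  · intro s u hu hnil hm
    have h1 : ev x u = 1 := by
      cases s
      · rw [cond_false, hB] at hm
        exact Subgroup.mem_bot.1 hm
      · rw [cond_true, hA] at hm
        exact Subgroup.mem_bot.1 hm
    rw [← hd u hu] at h1
    unfold tau0 at hnil
    rw [h1] at hnil
    exact absurd hnil (List.cons_ne_nil _ _)
  · intro u hu v hv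
    obtain ⟨rfl, h⟩ := hmem true u v hv
    rw [hd u hu] at h
    have h1 : ev x u ∈ A := h ▸ A.one_mem
    refine ⟨h1, ?_⟩
    have h2 : (⟨ev x u, h1⟩ : A) = 1 := Subtype.ext h
    rw [h2, map_one]
    rfl
  · intro u hu v hv
    obtain ⟨rfl, h⟩ := hmem false u v hv
    rw [hd u hu] at h
    have h1 : ev x u ∈ B := h ▸ B.one_mem
    refine ⟨h1, ?_⟩
    have h2 : (⟨ev x u, h1⟩ : B) = 1 := Subtype.ext h
    rw [h2, map_one]
    rfl

end Pool.Agent.OR2
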