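import Pool.Agent.OR2.Bas
import Pool.Agent.OR2.Red
import Pool.Agent.OR2.Tst
import Pool.Agent.OR2.Siz
import Pool.Agent.OR2.Pol
import Pool.Agent.OR2.Iso
import Pool.Agent.OR2.Fre

/-!
# The closure theorem and the class of relators
-/

set_option autoImplicit false

namespace Pool.Agent.OR2

open Pool.Agent.Lib.PT

/-- value of a word of the presented group in the HNN extension -/
theorem ev_of_iso {m : ℕ} {R : Set (FreeGroup (Fin m))} {H : Type*} [Group H]
    (Φ : PresentedGroup R ≃* H) (X : ℕ → H) (hX : ∀ z : Fin m, X z.val = Φ (PresentedGroup.of z))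
    (w : List (Fin m × Bool)) :
    ev X (w.map fun p => (p.1.val, p.2)) = Φ (PresentedGroup.mk R (FreeGroup.mk w)) := by
  induction w with
  | nil =>
    rw [List.map_nil, ev_nil]
    change 1 = Φ (PresentedGroup.mk R 1)
    rw [map_one, map_one]
  | cons p w ih =>
    have h1 : FreeGroup.mk (p :: w) = FreeGroup.mk [p] * FreeGroup.mk w := by
      rw [FreeGroup.mul_mk]
      rfl
    rw [List.map_cons, ev_cons, ih, h1, map_mul, map_mul]
    congr 1
    obtain ⟨z, s⟩ := p
    cases s
    · have h2 : FreeGroup.mk [(z, false)] = (FreeGroup.of z)⁻¹ := by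
        rw [FreeGroup.of, FreeGroup.inv_mk]
        rfl
      rw [cond_false, hX, h2, map_inv, map_inv]
      rfl
    · rw [cond_true, hX]
      rfl

/-- the decision of the reduction is in polynomial time and correct -/
theorem wpp_of_red {m n k : ℕ} {r' : FreeGroup (Fin m)} {G : Type} [Group G] {A B : Subgroup G}
    (φ : A ≃* B) {x : ℕ → G} {τ : Bool → W → List W} (hτ : TauOk φ n x τ)
    (hp : PolyTime (fun q : Bool × W => τ q.1 q.2)) (hm : ∀ i < m, i ≠ k → i < n)
    {ω : ℕ → ℝ} {C : ℕ} (hω : ∀ i < n, 1 ≤ ω i ∧ ω i ≤ C)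
    (hwt : ∀ s u, Ok n u → ∀ v ∈ τ s u, Ok n v ∧ wt ω v ≤ wt ω u)
    {d : W → Bool} (hdp : PolyTime d) (hd : ∀ u, Ok n u → (d u = true ↔ ev x u = 1))
    (Φ : PresentedGroup ({r'} : Set (FreeGroup (Fin m))) ≃* HNNExtension G A B φ)
    (hΦ : ∀ z : Fin m, yx φ k x z.val = Φ (PresentedGroup.of z)) : WPP r' := by
  have hr := poly_red hp hm (red_size hω hwt)
  refine wpp_of (fun v => (red k τ (dec m v)).1.isEmpty && d (red k τ (dec m v)).2) ?_ ?_
  · exact PolyTime.and (hr.fst.isEmpty) (hdp.comp hr.snd)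
  · intro w
    have hu : ∀ p ∈ dec m (code w), p.1 ≠ k → p.1 < n := fun p hp h => hm _ (ok_dec m _ p hp) h
    obtain ⟨h1, h2⟩ := red_spec φ hτ (dec m (code w)) hu
    have h3 : ev (yx φ k x) (dec m (code w)) = Φ (PresentedGroup.mk _ (FreeGroup.mk w)) := by
      rw [dec_code]
      exact ev_of_iso Φ _ hΦ w
    rw [Bool.and_eq_true, List.isEmpty_iff, hd _ h1, ← h2, h3]
    exact map_eq_one_iff Φ Φ.injective

theorem exists_bound (n : ℕ) (f : ℕ → ℝ) : ∃ C : ℕ, 1 ≤ C ∧ ∀ i ≤ n, f i ≤ C := by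
  induction n with
  | zero =>
    obtain ⟨C, hC⟩ := exists_nat_ge (f 0)
    refine ⟨C + 1, by omega, fun i hi => ?_⟩
    obtain rfl : i = 0 := by omega
    push_cast
    linarith
  | succ n ih =>
    obtain ⟨C, hC1, hC⟩ := ih
    obtain ⟨D, hD⟩ := exists_nat_ge (f (n + 1))
    refine ⟨C + D, by omega, fun i hi => ?_⟩
    have hC0 : (0 : ℝ) ≤ C := Nat.cast_nonneg C
    have hD0 : (0 : ℝ) ≤ D := Nat.cast_nonneg D
    push_cast
    rcases Nat.lt_or_ge i (n + 1) with h | h
    · linarith [hC i (by omega)]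
    · obtain rfl : i = n + 1 := by omega
      linarith

/-- polynomial time is preserved by balanced substitutions -/
theorem wpp_sub {m : ℕ} {r w : FreeGroup (Fin m)} {y : Fin m} (hw : w ∈ without y)
    (hb : Balanced (PresentedGroup.mk ({r} : Set (FreeGroup (Fin m))) w) (PresentedGroup.of y))
    (hr : WPP r) : WPP (sub y w r) := by
  obtain ⟨f, hf, hfs⟩ := wpp_poly hr
  obtain ⟨l, hl, hinv, hp⟩ := hb
  have hinfw : ∀ z : ℤ, (PresentedGroup.mk ({r} : Set (FreeGroup (Fin m))) w) ^ z = 1 → z = 0 := by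
    intro z hz
    have h1 := zpow_eq_one_of hinv (fun k => (hp k).1) z
    have h0 := zpow_eq_one_of hinv (fun k => (hp k).1) 0
    rw [hz, ← zpow_zero (PresentedGroup.mk ({r} : Set (FreeGroup (Fin m))) w), h0] at h1
    simp only [Int.natAbs_zero, CharP.cast_eq_zero] at h1
    exact Int.natAbs_eq_zero.1 (by exact_mod_cast h1.symm)
  have hinfy : ∀ z : ℤ, (PresentedGroup.of y : PresentedGroup ({r} : Set (FreeGroup (Fin m)))) ^ z
      = 1 → z = 0 := by
    intro z hz
    have h1 := zpow_eq_one_of hinv (fun k => (hp k).2) z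
    have h0 := zpow_eq_one_of hinv (fun k => (hp k).2) 0
    rw [hz, ← zpow_zero (PresentedGroup.of y : PresentedGroup ({r} : Set (FreeGroup (Fin m)))),
      h0] at h1
    simp only [Int.natAbs_zero, CharP.cast_eq_zero] at h1
    exact Int.natAbs_eq_zero.1 (by exact_mod_cast h1.symm)
  obtain ⟨φ, hφ⟩ := exists_phi hinfw hinfy
  obtain ⟨Φ, hΦ1, hΦ2, -⟩ := iso_sub hw φ rfl hφ
  -- letters of `G`
  set F : Fin (m + 1) → FreeGroup (Fin m) := fun i =>
    if h : i.val < m then FreeGroup.of ⟨i.val, h⟩ else w with hF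
  have hxm : xF r F m = PresentedGroup.mk ({r} : Set (FreeGroup (Fin m))) w := by
    unfold xF
    rw [dif_pos (Nat.lt_succ_self m), hF]
    simp
  have hxi : ∀ z : Fin m, xF r F z.val = PresentedGroup.of z := by
    intro z
    unfold xF
    rw [dif_pos (Nat.lt_succ_of_lt z.isLt), hF]
    simp only [Fin.is_lt, dite_true]
    rfl
  obtain ⟨C, hC1, hC⟩ := exists_bound m (fun i => l (xF r F i))
  have hd : ∀ u, Ok (m + 1) u → (dW f F u = true ↔ ev (xF r F) u = 1) := fun u hu =>
    dW_spec hfs F hu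
  have hpow : ∀ j : ℕ, l (xF r F m ^ j) = j ∧ l (xF r F y.val ^ j) = j := by
    intro j
    rw [hxm, hxi]
    exact hp j
  have hA : Subgroup.zpowers (PresentedGroup.mk ({r} : Set (FreeGroup (Fin m))) w) =
      Subgroup.zpowers (xF r F m) := by rw [hxm]
  have hB : Subgroup.zpowers (PresentedGroup.of y : PresentedGroup ({r} : Set (FreeGroup (Fin m))))
      = Subgroup.zpowers (xF r F y.val) := by rw [hxi]
  refine wpp_of_red (n := m + 1) (k := y.val) (x := xF r F) (τ := tauC (dW f F) C y.val m)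
    (ω := fun i => max 1 (l (xF r F i))) (C := C) (d := dW f F) φ ?_ ?_ ?_ ?_ ?_ ?_ hd Φ ?_
  · refine tauC_ok (le_of_lt y.isLt) φ hA hB ?_ hd hl hinv hpow hC
    intro a z ha
    rw [hxm] at ha
    rw [hxi]
    exact hφ a z ha
  · exact poly_tauC (poly_dW hf F) C y.val m
  · intro i hi _
    omega
  · intro i hi
    refine ⟨le_max_left _ _, max_le ?_ (hC i (by omega))⟩
    exact_mod_cast hC1
  · intro s u hu v hv
    exact tauC_wt (le_of_lt y.isLt) hd hl hinv hpow C s u hu v hv
  · exact poly_dW hf F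
  · intro z
    unfold yx
    by_cases hz : z = y
    · rw [hz, if_pos rfl, hΦ2]
    · rw [if_neg (fun h => hz (Fin.ext h)), hΦ1 z hz, hxi]

/-- the base group embeds in the substituted group -/
theorem wpp_root {m : ℕ} {r w : FreeGroup (Fin m)} {y : Fin m} (hw : w ∈ without y)
    (hb : Balanced (PresentedGroup.mk ({r} : Set (FreeGroup (Fin m))) w) (PresentedGroup.of y))
    (hr : WPP (sub y w r)) : WPP r := by
  obtain ⟨l, hl, hinv, hp⟩ := hb
  have hinfw : ∀ z : ℤ, (PresentedGroup.mk ({r} : Set (FreeGroup (Fin m))) w) ^ z = 1 → z = 0 := by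
    intro z hz
    have h1 := zpow_eq_one_of hinv (fun k => (hp k).1) z
    have h0 := zpow_eq_one_of hinv (fun k => (hp k).1) 0
    rw [hz, ← zpow_zero (PresentedGroup.mk ({r} : Set (FreeGroup (Fin m))) w), h0] at h1
    simp only [Int.natAbs_zero, CharP.cast_eq_zero] at h1
    exact Int.natAbs_eq_zero.1 (by exact_mod_cast h1.symm)
  have hinfy : ∀ z : ℤ, (PresentedGroup.of y : PresentedGroup ({r} : Set (FreeGroup (Fin m)))) ^ z
      = 1 → z = 0 := by
    intro z hz
    have h1 := zpow_eq_one_of hinv (fun k => (hp k).2) z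
    have h0 := zpow_eq_one_of hinv (fun k => (hp k).2) 0
    rw [hz, ← zpow_zero (PresentedGroup.of y : PresentedGroup ({r} : Set (FreeGroup (Fin m)))),
      h0] at h1
    simp only [Int.natAbs_zero, CharP.cast_eq_zero] at h1
    exact Int.natAbs_eq_zero.1 (by exact_mod_cast h1.symm)
  obtain ⟨φ, hφ⟩ := exists_phi hinfw hinfy
  obtain ⟨Φ, -, -, hΦ3⟩ := iso_sub hw φ rfl hφ
  refine wpp_of_hom (fun z => sub y w (FreeGroup.of z)) ?_ hr
  intro u
  have h1 : FreeGroup.lift (fun z => sub y w (FreeGroup.of z)) u = sub y w u := by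
    have : FreeGroup.lift (fun z => sub y w (FreeGroup.of z)) = sub y w := by
      ext z
      simp
    rw [this]
  rw [h1, ← map_eq_one_iff Φ Φ.injective, hΦ3,
    map_eq_one_iff _ (HNNExtension.of_injective φ)]

/-- one more free letter -/
theorem wpp_add {m : ℕ} {r : FreeGroup (Fin m)} (hr : WPP r) :
    WPP (FreeGroup.map Fin.castSucc r : FreeGroup (Fin (m + 1))) := by
  obtain ⟨f, hf, hfs⟩ := wpp_poly hr
  obtain ⟨Φ, hΦ1, hΦ2⟩ := iso_free (r := r)
    (MulEquiv.refl (⊥ : Subgroup (PresentedGroup ({r} : Set (FreeGroup (Fin m)))))) rfl rfl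
  have hd : ∀ u, Ok m u → (dW f FreeGroup.of u = true ↔ ev (xF r FreeGroup.of) u = 1) :=
    fun u hu => dW_spec hfs FreeGroup.of hu
  refine wpp_of_red (n := m) (k := m) (x := xF r FreeGroup.of) (τ := tau0 (dW f FreeGroup.of))
    (ω := fun _ => 1) (C := 1) (d := dW f FreeGroup.of) _ (tau0_ok _ rfl rfl hd)
    (poly_tau0 (poly_dW hf _)) ?_ ?_ ?_ (poly_dW hf _) hd Φ ?_
  · intro i hi h
    omega
  · intro i _
    simp
  · intro s u hu v hv
    unfold tau0 at hv
    have hv' : v = [] := by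
      cases h : dW f FreeGroup.of u
      · rw [h] at hv
        simp at hv
      · rw [h] at hv
        simpa using hv
    rw [hv']
    refine ⟨Ok.nil, ?_⟩
    rw [wt_nil]
    have := length_le_wt (ω := fun _ => (1 : ℝ)) (n := m) (fun i _ => le_refl 1) hu
    exact (Nat.cast_nonneg _).trans this
  · intro z
    unfold yx
    refine Fin.lastCases ?_ (fun z => ?_) z
    · rw [Fin.val_last, if_pos rfl, hΦ2]
    · have hz : (z.castSucc : Fin (m + 1)).val = z.val := rfl
      rw [hz, if_neg (ne_of_lt z.isLt), hΦ1]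
      congr 1
      unfold xF
      rw [dif_pos z.isLt]
      rfl

theorem wpp_drop {m : ℕ} {r : FreeGroup (Fin m)}
    (hr : WPP (FreeGroup.map Fin.castSucc r : FreeGroup (Fin (m + 1)))) : WPP r := by
  refine wpp_of_hom (fun z => FreeGroup.of z.castSucc) (fun u => ?_) hr
  have h1 : FreeGroup.lift (fun z : Fin m => FreeGroup.of z.castSucc) u =
      FreeGroup.map Fin.castSucc u := by
    rw [FreeGroup.map_eq_lift]
    rfl
  rw [h1]
  exact (drop_iff r u).symm

theorem wpp_equiv {m : ℕ} {r : FreeGroup (Fin m)} (α : FreeGroup (Fin m) ≃* FreeGroup (Fin m))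
    (hr : WPP r) : WPP (α r) := by
  refine wpp_of_hom (fun z => α.symm (FreeGroup.of z)) (fun u => ?_) hr
  have h1 : FreeGroup.lift (fun z : Fin m => α.symm (FreeGroup.of z)) u = α.symm u := by
    have : FreeGroup.lift (fun z : Fin m => α.symm (FreeGroup.of z)) = α.symm.toMonoidHom := by
      ext z
      simp
    rw [this]
    rfl
  rw [h1, ← equiv_iff α r (α.symm u), α.apply_symm_apply]

theorem wpp_inv {m : ℕ} {r : FreeGroup (Fin m)} (hr : WPP r) : WPP r⁻¹ := by
  refine wpp_of_hom FreeGroup.of (fun u => ?_) hr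
  have h1 : FreeGroup.lift (FreeGroup.of : Fin m → FreeGroup (Fin m)) u = u := by
    have : FreeGroup.lift (FreeGroup.of : Fin m → FreeGroup (Fin m)) = MonoidHom.id _ := by
      ext z
      simp
    rw [this]
    rfl
  rw [h1]
  exact inv_iff r u

/-- elements on which a character takes the same value up to sign, not zero, are balanced -/
theorem balanced_of_char {G : Type*} [Group G] (χ : G →* Multiplicative ℤ) {a b : G} {c : ℕ}
    (hc : c ≠ 0) (ha : (χ a).toAdd.natAbs = c) (hb : (χ b).toAdd.natAbs = c) : Balanced a b := by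
  have hc' : (c : ℝ) ≠ 0 := Nat.cast_ne_zero.2 hc
  have hc0 : (0 : ℝ) < c := Nat.cast_pos.2 (Nat.pos_of_ne_zero hc)
  have key : ∀ g : G, (χ g).toAdd.natAbs = c → ∀ k : ℕ,
      (((χ (g ^ k)).toAdd.natAbs : ℕ) : ℝ) / c = k := by
    intro g hg k
    rw [map_pow, toAdd_pow, nsmul_eq_mul, Int.natAbs_mul, Int.natAbs_natCast, hg]
    push_cast
    field_simp
  refine ⟨fun g => (((χ g).toAdd.natAbs : ℕ) : ℝ) / c, fun g h => ?_, fun g => ?_,
    fun k => ⟨key a ha k, key b hb k⟩⟩
  · simp only [map_mul, toAdd_mul]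
    rw [← add_div, div_le_div_iff_of_pos_right hc0]
    exact_mod_cast Int.natAbs_add_le _ _
  · simp only [map_inv, toAdd_inv, Int.natAbs_neg]

/-- properties of a class `P` of relators over finite alphabets -/
structure Closed (P : (m : ℕ) → FreeGroup (Fin m) → Prop) : Prop where
  /-- the letters (the groups are free) -/
  letter : ∀ {m : ℕ} (y : Fin m), P m (FreeGroup.of y)
  /-- the relators of the iterated Baumslag-Gersten groups -/
  tower : ∀ {m : ℕ} {b : ℤ}, b ≠ 0 → ∀ {r : FreeGroup (Fin m)}, OR1.Rel b r → P m r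
  /-- automorphisms of the free group -/
  auto : ∀ {m : ℕ} {r : FreeGroup (Fin m)} (α : FreeGroup (Fin m) ≃* FreeGroup (Fin m)),
    P m r → P m (α r)
  /-- inverses -/
  inv : ∀ {m : ℕ} {r : FreeGroup (Fin m)}, P m r → P m r⁻¹
  /-- one more letter which does not occur in the relator -/
  free : ∀ {m : ℕ} {r : FreeGroup (Fin m)}, P (m + 1) (FreeGroup.map Fin.castSucc r) ↔ P m r
  /-- balanced substitutions `y ↦ y⁻¹ w y` -/
  subst : ∀ {m : ℕ} {r w : FreeGroup (Fin m)} {y : Fin m}, w ∈ without y →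
    Balanced (PresentedGroup.mk ({r} : Set (FreeGroup (Fin m))) w) (PresentedGroup.of y) →
    (P m (sub y w r) ↔ P m r)

theorem closed_wpp : Closed (fun _ r => WPP r) where
  letter := wpp_letter
  tower := fun hb _ h => wpp_tower hb h
  auto := wpp_equiv
  inv := wpp_inv
  free := ⟨wpp_drop, wpp_add⟩
  subst := fun hw hb => ⟨wpp_root hw hb, wpp_sub hw hb⟩

end Pool.Agent.OR2
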