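import Pool.Agent.OR2.Main

/-!
# Towers of words
-/

set_option autoImplicit false

namespace Pool.Agent.OR2

/-- the towers: `nest t [w_1, ..., w_k] = w_1 ^ (w_2 ^ ( ... (w_k ^ t)))`, `a ^ b = b⁻¹ a b` -/
def nest {G : Type*} [Group G] (t : G) : List G → G
  | [] => t
  | w :: ws => (nest t ws)⁻¹ * w * nest t ws

theorem map_nest {G H : Type*} [Group G] [Group H] (f : G →* H) (t : G) (ws : List G) :
    f (nest t ws) = nest (f t) (ws.map f) := by
  induction ws with
  | nil => rfl
  | cons w ws ih => rw [nest, map_mul, map_mul, map_inv, ih, List.map_cons, nest]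

theorem nest_append {G : Type*} [Group G] (t w : G) (ws : List G) :
    nest t (ws ++ [w]) = nest (t⁻¹ * w * t) ws := by
  induction ws with
  | nil => rfl
  | cons v ws ih => rw [List.cons_append, nest, ih, nest]

theorem sub_of_self {m : ℕ} (y : Fin m) (w : FreeGroup (Fin m)) :
    sub y w (FreeGroup.of y) = (FreeGroup.of y)⁻¹ * w * FreeGroup.of y := by
  unfold sub
  rw [FreeGroup.lift_apply_of, if_pos rfl]

theorem sub_nest {m : ℕ} {y : Fin m} {u w : FreeGroup (Fin m)} {ws : List (FreeGroup (Fin m))}
    (hu : u ∈ without y) (hws : ∀ v ∈ ws, v ∈ without y) :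
    sub y w (u⁻¹ * nest (FreeGroup.of y) ws) = u⁻¹ * nest (FreeGroup.of y) (ws ++ [w]) := by
  rw [nest_append, map_mul, map_inv, sub_without hu, map_nest, sub_of_self]
  congr 2
  exact List.map_congr_left (fun v hv => sub_without (hws v hv)) |>.trans (List.map_id _)

/-- a word outside the commutator subgroup has a nonzero value under a character -/
theorem exists_char {m : ℕ} {g : FreeGroup (Fin m)} (hg : g ∉ commutator (FreeGroup (Fin m))) :
    ∃ χ : FreeGroup (Fin m) →* Multiplicative ℤ, χ g ≠ 1 := by
  by_contra hcon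
  push Not at hcon
  apply hg
  rw [← Abelianization.ker_of, MonoidHom.mem_ker]
  have h1 : FreeAbelianGroup.equivFinsupp (Fin m)
      (Additive.ofMul (Abelianization.of g) : FreeAbelianGroup (Fin m)) = 0 := by
    ext z
    have h2 := hcon (AddMonoidHom.toMultiplicativeRight
      ((Finsupp.applyAddHom z).comp (FreeAbelianGroup.equivFinsupp (Fin m)).toAddMonoidHom) |>.comp
        Abelianization.of)
    exact h2
  rw [map_eq_zero_iff _ (FreeAbelianGroup.equivFinsupp (Fin m)).injective] at h1
  exact h1

/-- characters kill commutators -/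
theorem char_comm {m : ℕ} {g : FreeGroup (Fin m)} (hg : g ∈ commutator (FreeGroup (Fin m)))
    (χ : FreeGroup (Fin m) →* Multiplicative ℤ) : χ g = 1 := by
  rw [← MonoidHom.mem_ker]
  exact Abelianization.commutator_subset_ker χ hg

/-- a word without `y` outside the commutator subgroup is balanced with `y`, if the relator is
trivial under all characters with the same value for `y` and `w` -/
theorem balanced_comm {m : ℕ} {y : Fin m} {r w : FreeGroup (Fin m)} (hw : w ∈ without y)
    (hw' : w ∉ commutator (FreeGroup (Fin m)))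
    (hr : ∀ ψ : FreeGroup (Fin m) →* Multiplicative ℤ, ψ (FreeGroup.of y) = ψ w → ψ r = 1) :
    Balanced (PresentedGroup.mk ({r} : Set (FreeGroup (Fin m))) w) (PresentedGroup.of y) := by
  obtain ⟨χ, hχ⟩ := exists_char hw'
  set ψ : FreeGroup (Fin m) →* Multiplicative ℤ :=
    FreeGroup.lift fun z => if z = y then χ w else χ (FreeGroup.of z) with hψ
  have hψw : ψ w = χ w := by
    have h : without y ≤ ψ.eqLocus χ := by
      unfold without
      rw [Subgroup.closure_le]
      rintro _ ⟨z, hz, rfl⟩
      change ψ (FreeGroup.of z) = χ (FreeGroup.of z)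
      rw [hψ, FreeGroup.lift_apply_of, if_neg hz]
    exact h hw
  have hψy : ψ (FreeGroup.of y) = χ w := by
    rw [hψ, FreeGroup.lift_apply_of, if_pos rfl]
  have hrel : ∀ q ∈ ({r} : Set (FreeGroup (Fin m))), ψ q = 1 := by
    rintro q rfl
    exact hr ψ (hψy.trans hψw.symm)
  refine balanced_of_char (PresentedGroup.toGroup (f := fun z => ψ (FreeGroup.of z)) (rels := {r})
    ?_) (c := (χ w).toAdd.natAbs) ?_ ?_ ?_
  · intro q hq
    have h1 : FreeGroup.lift (fun z => ψ (FreeGroup.of z)) = ψ := by
      ext z
      simp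
    rw [h1]
    exact hrel q hq
  · intro h
    apply hχ
    rw [Int.natAbs_eq_zero] at h
    exact h
  · have h1 : FreeGroup.lift (fun z => ψ (FreeGroup.of z)) = ψ := by
      ext z
      simp
    change ((FreeGroup.lift (fun z => ψ (FreeGroup.of z)) w)).toAdd.natAbs = _
    rw [h1, hψw]
  · rw [PresentedGroup.toGroup.of, hψy]

/-- the automorphism `y ↦ u y`, `u` a word without `y` -/
theorem exists_shift {m : ℕ} {y : Fin m} {u : FreeGroup (Fin m)} (hu : u ∈ without y) :
    ∃ α : FreeGroup (Fin m) ≃* FreeGroup (Fin m), α (FreeGroup.of y) = u * FreeGroup.of y := by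
  have key : ∀ v : FreeGroup (Fin m), v ∈ without y → ∀ g ∈ without y,
      FreeGroup.lift (fun z => if z = y then v * FreeGroup.of y else FreeGroup.of z) g = g := by
    intro v _ g hg
    have h : without y ≤ (FreeGroup.lift (fun z => if z = y then v * FreeGroup.of y else
        FreeGroup.of z)).eqLocus (MonoidHom.id _) := by
      unfold without
      rw [Subgroup.closure_le]
      rintro _ ⟨z, hz, rfl⟩
      change FreeGroup.lift _ (FreeGroup.of z) = FreeGroup.of z
      rw [FreeGroup.lift_apply_of, if_neg hz]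
    exact h hg
  have hu' : u⁻¹ ∈ without y := inv_mem hu
  refine ⟨MonoidHom.toMulEquiv
    (FreeGroup.lift fun z => if z = y then u * FreeGroup.of y else FreeGroup.of z)
    (FreeGroup.lift fun z => if z = y then u⁻¹ * FreeGroup.of y else FreeGroup.of z) ?_ ?_, ?_⟩
  · ext z
    rw [MonoidHom.comp_apply, FreeGroup.lift_apply_of]
    by_cases hz : z = y
    · rw [if_pos hz, map_mul, key _ hu' _ hu, FreeGroup.lift_apply_of, if_pos rfl, hz,
        mul_inv_cancel_left]
      rfl
    · rw [if_neg hz, FreeGroup.lift_apply_of, if_neg hz]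
      rfl
  · ext z
    rw [MonoidHom.comp_apply, FreeGroup.lift_apply_of]
    by_cases hz : z = y
    · rw [if_pos hz, map_mul, key _ hu _ hu', FreeGroup.lift_apply_of, if_pos rfl, hz,
        inv_mul_cancel_left]
      rfl
    · rw [if_neg hz, FreeGroup.lift_apply_of, if_neg hz]
      rfl
  · change FreeGroup.lift (fun z => if z = y then u * FreeGroup.of y else FreeGroup.of z)
      (FreeGroup.of y) = _
    rw [FreeGroup.lift_apply_of, if_pos rfl]

/-- towers of words: if a class of relators is `Closed`, it contains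
`u⁻¹ w_1 ^ (w_2 ^ ( ... (w_k ^ y)))` -/
theorem nest_mem {P : (m : ℕ) → FreeGroup (Fin m) → Prop} (hP : Closed P) {m : ℕ} {y : Fin m}
    {u w : FreeGroup (Fin m)} (hu : u ∈ without y) (hw : w ∈ without y)
    (hw' : w ∉ commutator (FreeGroup (Fin m))) (huw : u⁻¹ * w ∈ commutator (FreeGroup (Fin m)))
    (ws : List (FreeGroup (Fin m)))
    (hws : ∀ v ∈ ws, v ∈ without y ∧ v ∉ commutator (FreeGroup (Fin m))) :
    P m (u⁻¹ * nest (FreeGroup.of y) (w :: ws)) := by
  induction ws using List.reverseRecOn with
  | nil =>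
    have h0 : P m (u⁻¹ * nest (FreeGroup.of y) []) := by
      obtain ⟨α, hα⟩ := exists_shift (inv_mem hu)
      have := hP.auto α (hP.letter y)
      rw [hα] at this
      exact this
    have h1 := (hP.subst (r := u⁻¹ * nest (FreeGroup.of y) []) hw (balanced_comm hw hw' ?_)).2 h0
    · rw [sub_nest hu (by simp)] at h1
      exact h1
    · intro ψ hψ
      have := char_comm huw ψ
      rw [map_mul, map_inv] at this
      rw [nest, map_mul, map_inv, hψ, this]
  | append_singleton ws v ih =>
    have hws1 : ∀ v ∈ ws, v ∈ without y ∧ v ∉ commutator (FreeGroup (Fin m)) := fun v' hv' =>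
      hws v' (List.mem_append_left _ hv')
    obtain ⟨hv, hv'⟩ := hws v (by simp)
    have h1 := (hP.subst hv (balanced_comm hv hv' ?_)).2 (ih hws1)
    · rw [sub_nest hu] at h1
      · exact h1
      · intro v' hv''
        rw [List.mem_cons] at hv''
        rcases hv'' with rfl | hv''
        · exact hw
        · exact (hws1 v' hv'').1
    · intro ψ _
      have := char_comm huw ψ
      rw [map_mul, map_inv] at this
      rw [nest, map_mul, map_mul, map_mul, map_inv, map_inv, mul_comm (_)⁻¹ (ψ w),
        inv_mul_cancel_right, this]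

end Pool.Agent.OR2
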